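import Pool.Agent.VGS.Aut
import Pool.Agent.VGS.Trd

/-!
# Representatives of a finite quotient which fix given independent elements
-/

set_option autoImplicit false

open scoped LinearAlgebra.Projectivization
open MvPolynomial

namespace Pool.Agent.VGS

/-- an automorphism which preserves a countable algebraically closed field `E` can be changed
outside `E` so that it fixes given elements which are algebraically independent over `E` -/
theorem exists_extend_fix (E : Fl) [Countable E] (σ : ℂ ≃+* ℂ) (hσ : ∀ x ∈ E, σ x ∈ E) {n : ℕ}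
    (t : Fin n → ℂ) (ht : AlgebraicIndependent E t) :
    ∃ τ : ℂ ≃+* ℂ, (∀ x ∈ E, τ x = σ x) ∧ ∀ i, τ (t i) = t i := by
  have hcount : Countable (MvPolynomial (Fin n) E) := by
    have h1 : Cardinal.mk (MvPolynomial (Fin n) E) ≤ Cardinal.aleph0 := by
      refine (MvPolynomial.cardinalMk_le_max).trans ?_
      exact max_le (max_le Cardinal.mk_le_aleph0 Cardinal.mk_le_aleph0) le_rfl
    exact Cardinal.mk_le_aleph0_iff.mp h1
  let s : E →+* E := (σ : ℂ →+* ℂ).restrict E E hσ
  have hs : Function.Injective s := fun a b h => by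
    apply Subtype.ext
    apply σ.injective
    exact congrArg Subtype.val h
  have hf : Function.Injective (aeval t : MvPolynomial (Fin n) E →ₐ[E] ℂ) := ht
  let f : MvPolynomial (Fin n) E →+* ℂ := (aeval t : MvPolynomial (Fin n) E →ₐ[E] ℂ)
  obtain ⟨τ, hτ⟩ := ext_hom f (f.comp (MvPolynomial.map s)) (by
    have h1 : Function.Injective (f.comp (MvPolynomial.map s)) := by
      rw [RingHom.coe_comp]
      exact Function.Injective.comp hf (MvPolynomial.map_injective s hs)
    rw [(RingHom.injective_iff_ker_eq_bot _).1 h1]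
    exact (RingHom.injective_iff_ker_eq_bot f).1 hf)
  refine ⟨τ, fun x hx => ?_, fun i => ?_⟩
  · have h1 := hτ (C (⟨x, hx⟩ : E))
    have h2 : ((s ⟨x, hx⟩ : E) : ℂ) = σ x := rfl
    rw [← h2]
    simpa [f] using h1
  · have h1 := hτ (X i)
    simpa [f] using h1

/-- the classes of `Fix K` modulo `Fix K'`, for `K'` algebraic over `K`, have representatives
which fix given elements algebraically independent over `K` -/
theorem exists_rep_fix (K K' : Fl) [Countable K] (h2 : K' ≤ clo K) {n : ℕ} (t : Fin n → ℂ)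
    (ht : AlgebraicIndependent K t) {σ : ℂ ≃+* ℂ} (hσ : σ ∈ Fix K) :
    ∃ τ ∈ Fix (adj K (Set.range t)), σ⁻¹ * τ ∈ Fix K' := by
  have hc : Countable (clo K) := inferInstance
  obtain ⟨τ, h3, h4⟩ := exists_extend_fix (clo K) σ (fun x hx => (fix_mem_clo hσ).2 hx) t
    (ai_clo.2 ht)
  refine ⟨τ, mem_Fix_adj.2 ⟨fun x hx => ?_, ?_⟩, fun x hx => ?_⟩
  · rw [h3 x (le_clo K hx)]
    exact hσ x hx
  · rintro x ⟨i, rfl⟩
    exact h4 i
  · change σ.symm (τ x) = x
    rw [h3 x (h2 hx), RingEquiv.symm_apply_apply]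

end Pool.Agent.VGS
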