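import Pool.Agent.VGS.Aut
import Pool.Agent.VGS.RingN

/-! Module SysR: the numbers by which correspondences act on two-forms are rational. -/

set_option autoImplicit false

namespace Pool.Agent.VGS

/-- What the proof of rationality uses about two-forms: `X` is the set of points of the surface,
`K` its field of definition, `G` the points which are generic over `K`, and `tC i` are the
two-forms, evaluated on cycles. -/
structure Forms where
  P : Type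
  act : (ℂ ≃+* ℂ) → P → P
  act_one : ∀ p, act 1 p = p
  act_mul : ∀ σ τ p, act (σ * τ) p = act σ (act τ p)
  X : Set P
  G : Set P
  K : Fl
  cK : Countable K
  G_X : G ⊆ X
  act_G : ∀ σ ∈ Fix K, ∀ p ∈ G, act σ p ∈ G
  Ix : Type
  tC : Ix → (P →₀ ℚ) →ₗ[ℚ] ℂ
  conj : ∀ σ ∈ Fix K, ∀ i, ∃ j, ∀ z : P →₀ ℚ, (∀ q ∈ z.support, q ∈ X) →
    tC i (Finsupp.lmapDomain ℚ ℚ (act σ) z) = σ (tC j z)
  ng : ∀ i, ∀ q ∈ X, q ∉ G → tC i (Finsupp.single q 1) = 0
  s1s : ∀ (α : P → P →₀ ℚ) (s : ℂ), (∀ p ∈ G, ∀ q ∈ (α p).support, q ∈ G) →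
    (∀ σ ∈ Fix K, ∀ p ∈ G, α (act σ p) = Finsupp.lmapDomain ℚ ℚ (act σ) (α p)) →
    (∀ p ∈ G, ∀ i, tC i (α p) = s * tC i (Finsupp.single p 1)) → ∃ m : ℚ, s = m

namespace Forms

variable {S : Forms}

/-- the action of an automorphism on cycles -/
noncomputable def aC (S : Forms) (σ : ℂ ≃+* ℂ) : (S.P →₀ ℚ) →ₗ[ℚ] (S.P →₀ ℚ) :=
  Finsupp.lmapDomain ℚ ℚ (S.act σ)

/-- the linear extension of a map from points to cycles -/
noncomputable def ex (S : Forms) (T : S.P → S.P →₀ ℚ) : Module.End ℚ (S.P →₀ ℚ) :=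
  Finsupp.linearCombination ℚ T

theorem aC_single (σ : ℂ ≃+* ℂ) (p : S.P) (c : ℚ) :
    S.aC σ (Finsupp.single p c) = Finsupp.single (S.act σ p) c := by
  unfold aC
  rw [Finsupp.lmapDomain_apply, Finsupp.mapDomain_single]

theorem aC_one (z : S.P →₀ ℚ) : S.aC 1 z = z := by
  have h : S.aC 1 = LinearMap.id := by
    apply Finsupp.lhom_ext
    intro p c
    rw [aC_single, S.act_one]
    rfl
  rw [h]
  rfl

theorem aC_mul (σ τ : ℂ ≃+* ℂ) (z : S.P →₀ ℚ) : S.aC (σ * τ) z = S.aC σ (S.aC τ z) := by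
  have h : S.aC (σ * τ) = (S.aC σ).comp (S.aC τ) := by
    apply Finsupp.lhom_ext
    intro p c
    rw [aC_single, LinearMap.comp_apply, aC_single, aC_single, S.act_mul]
  rw [h]
  rfl

theorem ex_single (T : S.P → S.P →₀ ℚ) (p : S.P) : S.ex T (Finsupp.single p 1) = T p := by
  unfold ex
  rw [Finsupp.linearCombination_single, one_smul]

theorem ex_mem {T : S.P → S.P →₀ ℚ} {z : S.P →₀ ℚ} {N : Submodule ℚ (S.P →₀ ℚ)}
    (h : ∀ p ∈ z.support, T p ∈ N) : S.ex T z ∈ N := by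
  have h1 : S.ex T z = z.sum fun p c => c • T p := rfl
  rw [h1]
  exact Submodule.sum_mem _ fun p hp => N.smul_mem _ (h p hp)

/-- cycles of generic points -/
noncomputable def GC (S : Forms) : Submodule ℚ (S.P →₀ ℚ) := Finsupp.supported ℚ ℚ S.G

theorem mem_GC {z : S.P →₀ ℚ} : z ∈ S.GC ↔ ∀ q ∈ z.support, q ∈ S.G := Iff.rfl

theorem single_mem_GC {p : S.P} (hp : p ∈ S.G) : Finsupp.single p (1 : ℚ) ∈ S.GC :=
  Finsupp.single_mem_supported ℚ 1 hp

/-- linear statements on cycles of generic points may be checked on points -/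
theorem GC_le {N : Submodule ℚ (S.P →₀ ℚ)} (h : ∀ p ∈ S.G, Finsupp.single p (1 : ℚ) ∈ N)
    {z : S.P →₀ ℚ} (hz : z ∈ S.GC) : z ∈ N := by
  have h1 : S.GC = Submodule.span ℚ ((fun p => Finsupp.single p (1 : ℚ)) '' S.G) :=
    Finsupp.supported_eq_span_single ℚ S.G
  rw [h1] at hz
  refine (Submodule.span_le (p := N)).2 ?_ hz
  rintro _ ⟨p, hp, rfl⟩
  exact h p hp

theorem aC_mem_GC {σ : ℂ ≃+* ℂ} (hσ : σ ∈ Fix S.K) {z : S.P →₀ ℚ} (hz : z ∈ S.GC) :
    S.aC σ z ∈ S.GC := by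
  refine GC_le (N := S.GC.comap (S.aC σ)) (fun p hp => ?_) hz
  rw [Submodule.mem_comap, aC_single]
  exact single_mem_GC (S.act_G σ hσ p hp)

theorem GC_X {z : S.P →₀ ℚ} (hz : z ∈ S.GC) : ∀ q ∈ z.support, q ∈ S.X := fun _ hq =>
  S.G_X (hz hq)

/-- the sum of the conjugates commutes with the automorphisms over `K` -/
theorem trace_equi {K' : Fl} {n : ℕ} (g : Fin (n + 1) → ℂ ≃+* ℂ) (hg : ∀ i, g i ∈ Fix S.K)
    (hg' : ∀ σ ∈ Fix S.K, ∃! i, (g i)⁻¹ * σ ∈ Fix K') {e : Module.End ℚ (S.P →₀ ℚ)}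
    (he : ∀ σ ∈ Fix K', ∀ z ∈ S.GC, e (S.aC σ z) = S.aC σ (e z)) {σ : ℂ ≃+* ℂ}
    (hσ : σ ∈ Fix S.K) {z : S.P →₀ ℚ} (hz : z ∈ S.GC) :
    ∑ i, S.aC (g i) (e (S.aC (g i)⁻¹ (S.aC σ z))) =
      S.aC σ (∑ i, S.aC (g i) (e (S.aC (g i)⁻¹ z))) := by
  choose c hc hc' using fun i => hg' (σ⁻¹ * g i) (mul_mem (inv_mem hσ) (hg i))
  beta_reduce at hc hc'
  have hcj : ∀ i, S.aC (g i) (e (S.aC (g i)⁻¹ (S.aC σ z))) =
      S.aC σ (S.aC (g (c i)) (e (S.aC (g (c i))⁻¹ z))) := by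
    intro i
    have h1 : S.aC (g i)⁻¹ (S.aC σ z) =
        S.aC ((g (c i))⁻¹ * (σ⁻¹ * g i))⁻¹ (S.aC (g (c i))⁻¹ z) := by
      rw [← aC_mul, ← aC_mul]
      congr 1
      group
    rw [h1, he _ (inv_mem (hc i)) _ (aC_mem_GC (inv_mem (hg _)) hz), ← aC_mul, ← aC_mul]
    congr 2
    group
  have hinj : Function.Injective c := by
    intro i j hij
    have h1 := hc i
    have h2 := hc j
    rw [← hij] at h2
    have h3 : (g i)⁻¹ * g j ∈ Fix K' := by
      have := mul_mem (inv_mem h1) h2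
      convert this using 1
      group
    obtain ⟨l, -, hl⟩ := hg' (g j) (hg j)
    have h4 := hl i h3
    have h5 := hl j (by beta_reduce; rw [inv_mul_cancel]; exact one_mem _)
    rw [h4, h5]
  have hbij : Function.Bijective c := Finite.injective_iff_bijective.1 hinj
  rw [map_sum, ← Equiv.sum_comp (Equiv.ofBijective c hbij)
    fun i => S.aC σ (S.aC (g i) (e (S.aC (g i)⁻¹ z)))]
  exact Finset.sum_congr rfl fun i _ => hcj i

/-- the number by which a correspondence acts on two-forms is rational -/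
theorem rat' (S : Forms) (hk : clo (⊥ : Fl) ≤ S.K) {K' : Fl} {n : ℕ}
    (g : Fin (n + 1) → ℂ ≃+* ℂ) (hg : ∀ i, g i ∈ Fix S.K)
    (hg' : ∀ σ ∈ Fix S.K, ∃! i, (g i)⁻¹ * σ ∈ Fix K') {e : Module.End ℚ (S.P →₀ ℚ)}
    (heG : ∀ z ∈ S.GC, e z ∈ S.GC) (he : ∀ σ ∈ Fix K', ∀ z ∈ S.GC, e (S.aC σ z) = S.aC σ (e z))
    {m : ℂ} (hm : ∀ z ∈ S.GC, ∀ i, S.tC i (e z) = m * S.tC i z) : ∃ r : ℚ, m = r := by
  have hpG : ∀ j : ℕ, ∀ z ∈ S.GC, (e ^ j) z ∈ S.GC := by
    intro j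
    induction j with
    | zero => intro z hz; simpa using hz
    | succ j ih =>
      intro z hz
      rw [pow_succ]
      exact ih _ (heG z hz)
  have hpe : ∀ j : ℕ, ∀ σ ∈ Fix K', ∀ z ∈ S.GC, (e ^ j) (S.aC σ z) = S.aC σ ((e ^ j) z) := by
    intro j
    induction j with
    | zero => intro σ _ z _; rfl
    | succ j ih =>
      intro σ hσ z hz
      rw [pow_succ]
      change (e ^ j) (e (S.aC σ z)) = S.aC σ ((e ^ j) (e z))
      rw [he σ hσ z hz, ih σ hσ _ (heG z hz)]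
  have hpm : ∀ j : ℕ, ∀ z ∈ S.GC, ∀ i, S.tC i ((e ^ j) z) = m ^ j * S.tC i z := by
    intro j
    induction j with
    | zero =>
      intro z _ i
      rw [pow_zero, pow_zero, one_mul]
      rfl
    | succ j ih =>
      intro z hz i
      rw [pow_succ]
      change S.tC i ((e ^ j) (e z)) = _
      rw [ih _ (heG z hz), hm z hz, pow_succ, mul_assoc]
  have key : ∀ j : ℕ, ∃ q : ℚ, ∑ i, (g i m) ^ (j + 1) = q := by
    intro j
    have conj' : ∀ σ ∈ Fix S.K, ∀ i, ∃ j, ∀ z : S.P →₀ ℚ, (∀ q ∈ z.support, q ∈ S.X) →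
      S.tC i (S.aC σ z) = σ (S.tC j z) := S.conj
    refine S.s1s (fun p => ∑ i, S.aC (g i) ((e ^ (j + 1)) (S.aC (g i)⁻¹ (Finsupp.single p 1)))) _
      (fun p hp => ?_) (fun σ hσ p hp => ?_) (fun p hp i => ?_)
    · have h : ∑ i, S.aC (g i) ((e ^ (j + 1)) (S.aC (g i)⁻¹ (Finsupp.single p 1))) ∈ S.GC :=
        Submodule.sum_mem _ fun i _ => aC_mem_GC (hg i)
          (hpG _ _ (aC_mem_GC (inv_mem (hg i)) (single_mem_GC hp)))
      exact mem_GC.1 h
    · change _ = S.aC σ _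
      rw [← trace_equi g hg hg' (hpe (j + 1)) hσ (single_mem_GC hp), aC_single]
    · rw [map_sum, Finset.sum_mul]
      refine Finset.sum_congr rfl fun l _ => ?_
      have hw : S.aC (g l)⁻¹ (Finsupp.single p 1) ∈ S.GC :=
        aC_mem_GC (inv_mem (hg l)) (single_mem_GC hp)
      obtain ⟨i', hi'⟩ := conj' (g l) (hg l) i
      rw [hi' _ (GC_X (hpG _ _ hw)), hpm _ _ hw, map_mul, map_pow, ← hi' _ (GC_X hw), ← aC_mul,
        mul_inv_cancel, aC_one]
  have h3 : g 0 m ∈ clo (⊥ : Fl) := by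
    rw [mem_clo]
    refine (algebraic_of_psum (fun i => g i m) (fun j hj => ?_) 0).tower_top (⊥ : Fl)
    obtain ⟨q, hq⟩ := key (j - 1)
    rw [Nat.sub_add_cancel hj] at hq
    exact ⟨q, hq⟩
  have h4 : m ∈ clo (⊥ : Fl) := (fix_mem_clo (σ := g 0) (Fix_mono bot_le (hg 0))).1 h3
  have h5 : m ∈ S.K := hk h4
  obtain ⟨q, hq⟩ := key 0
  have h6 : ∑ i : Fin (n + 1), (g i m) ^ (0 + 1) = (n + 1) * m := by
    rw [Finset.sum_congr rfl fun i _ => by rw [zero_add, pow_one, hg i m h5]]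
    simp
  rw [h6] at hq
  refine ⟨q / (n + 1), ?_⟩
  have h7 : (n + 1 : ℂ) ≠ 0 := by exact_mod_cast Nat.succ_ne_zero n
  push_cast
  rw [← hq, mul_comm, mul_div_assoc, div_self h7, mul_one]

open Classical in
/-- the part of a cycle at the generic points -/
noncomputable def gPart (S : Forms) (z : S.P →₀ ℚ) : S.P →₀ ℚ := z.filter (· ∈ S.G)

theorem gPart_mem (z : S.P →₀ ℚ) : S.gPart z ∈ S.GC := by
  classical
  rw [mem_GC]
  intro q hq
  rw [gPart, Finsupp.support_filter, Finset.mem_filter] at hq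
  exact hq.2

theorem aC_apply (σ : ℂ ≃+* ℂ) (z : S.P →₀ ℚ) (q : S.P) : S.aC σ z q = z (S.act σ⁻¹ q) := by
  have hinj : Function.Injective (S.act σ) := by
    intro a b h
    have h1 := congrArg (S.act σ⁻¹) h
    rw [← S.act_mul, ← S.act_mul, inv_mul_cancel, S.act_one, S.act_one] at h1
    exact h1
  unfold aC
  rw [Finsupp.lmapDomain_apply]
  conv_lhs => rw [show q = S.act σ (S.act σ⁻¹ q) by
    rw [← S.act_mul, mul_inv_cancel, S.act_one]]
  rw [Finsupp.mapDomain_apply hinj]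

theorem gPart_aC {σ : ℂ ≃+* ℂ} (hσ : σ ∈ Fix S.K) (z : S.P →₀ ℚ) :
    S.gPart (S.aC σ z) = S.aC σ (S.gPart z) := by
  classical
  ext q
  rw [aC_apply, gPart, gPart, Finsupp.filter_apply, Finsupp.filter_apply, aC_apply]
  have h1 : q ∈ S.G ↔ S.act σ⁻¹ q ∈ S.G := by
    refine ⟨S.act_G _ (inv_mem hσ) q, fun h => ?_⟩
    have h2 := S.act_G _ hσ _ h
    rwa [← S.act_mul, mul_inv_cancel, S.act_one] at h2
  by_cases h : q ∈ S.G
  · rw [if_pos h, if_pos (h1.1 h)]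
  · rw [if_neg h, if_neg fun h2 => h (h1.2 h2)]

theorem tC_gPart {z : S.P →₀ ℚ} (hz : ∀ q ∈ z.support, q ∈ S.X) (i : S.Ix) :
    S.tC i (S.gPart z) = S.tC i z := by
  classical
  have h3 : z = S.gPart z + z.filter (fun q => ¬ q ∈ S.G) := by
    rw [gPart]
    exact (Finsupp.filter_add_filter_not z _).symm
  conv_rhs => rw [h3, map_add]
  have h4 : S.tC i (z.filter (fun q => ¬ q ∈ S.G)) = 0 := by
    have h5 : z.filter (fun q => ¬ q ∈ S.G) =
        ∑ q ∈ (z.filter (fun q => ¬ q ∈ S.G)).support,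
          (z.filter (fun q => ¬ q ∈ S.G)) q • Finsupp.single q (1 : ℚ) := by
      conv_lhs => rw [← Finsupp.sum_single (z.filter (fun q => ¬ q ∈ S.G)), Finsupp.sum]
      refine Finset.sum_congr rfl fun q _ => ?_
      rw [Finsupp.smul_single, smul_eq_mul, mul_one]
    rw [h5, map_sum]
    refine Finset.sum_eq_zero fun q hq => ?_
    rw [Finsupp.support_filter, Finset.mem_filter] at hq
    rw [map_smul, S.ng i q (hz q hq.1) hq.2, smul_zero]
  rw [h4, add_zero]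

/-- The number by which a correspondence over a finitely generated algebraic extension of `K`,
with arbitrary support in the surface, acts on two-forms is rational. -/
theorem rat (S : Forms) (hk : clo (⊥ : Fl) ≤ S.K) (T : Finset ℂ)
    (hT : ∀ x ∈ T, x ∈ clo S.K) {γ : S.P → S.P →₀ ℚ}
    (hγ : ∀ p ∈ S.G, ∀ q ∈ (γ p).support, q ∈ S.X)
    (hγ' : ∀ σ ∈ Fix (adj S.K (T : Set ℂ)), ∀ p ∈ S.G,
      γ (S.act σ p) = Finsupp.lmapDomain ℚ ℚ (S.act σ) (γ p))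
    {m : ℂ} (hm : ∀ p ∈ S.G, ∀ i, S.tC i (γ p) = m * S.tC i (Finsupp.single p 1)) :
    ∃ r : ℚ, m = r := by
  have := S.cK
  obtain ⟨K', h1, h2, hTK, -, l, g, hg, hg'⟩ := exists_normal S.K T hT
  have hK' : Fix K' ≤ Fix (adj S.K (T : Set ℂ)) := Fix_mono (adj_le h1 hTK)
  have hex : ∀ p, S.ex (fun p => S.gPart (γ p)) (Finsupp.single p 1) = S.gPart (γ p) :=
    fun p => ex_single _ p
  have hγ'' : ∀ σ ∈ Fix (adj S.K (T : Set ℂ)), ∀ p ∈ S.G, γ (S.act σ p) = S.aC σ (γ p) := hγ'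
  refine S.rat' hk g hg hg' (e := S.ex fun p => S.gPart (γ p)) (fun z hz => ?_)
    (fun σ hσ z hz => ?_) (m := m) (fun z hz i => ?_)
  · exact ex_mem fun p _ => gPart_mem _
  · refine GC_le (N := LinearMap.eqLocus ((S.ex fun p => S.gPart (γ p)).comp (S.aC σ))
      ((S.aC σ).comp (S.ex fun p => S.gPart (γ p)))) (fun p hp => ?_) hz
    change S.ex _ (S.aC σ _) = S.aC σ (S.ex _ _)
    rw [aC_single, hex, hex, hγ'' σ (hK' hσ) p hp, gPart_aC (Fix_mono h1 hσ)]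
  · refine GC_le (N := LinearMap.eqLocus ((S.tC i).comp (S.ex fun p => S.gPart (γ p)))
      ((LinearMap.mulLeft ℚ m).comp (S.tC i))) (fun p hp => ?_) hz
    change S.tC i (S.ex _ _) = m * S.tC i _
    rw [hex, tC_gPart (hγ p hp), hm p hp]

end Forms

end Pool.Agent.VGS
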