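import Pool.Agent.VGS2.SysT
import Pool.Agent.VGS2.Rep
import Pool.Agent.VGS.BI2

/-! Module SysN: nilpotence. -/

set_option autoImplicit false

namespace Pool.Agent.VGS

namespace Sys

variable {S : Sys}

theorem cW_letter {K' : Fl}
    (hn : ∀ σ ∈ Fix S.K, ∀ x, σ x ∈ K' ↔ x ∈ K') {σ : ℂ ≃+* ℂ} (hσ : σ ∈ Fix S.K)
    {e : Module.End ℚ S.W} (he : S.Letter K' e) : S.Letter K' (S.cW σ e) := by
  obtain ⟨α, hα, hα', hv⟩ := he
  have hact : ∀ p ∈ S.Gen S.K, S.act σ⁻¹ p ∈ S.Gen S.K := fun p hp =>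
    S.act_gen S.K le_rfl _ (inv_mem hσ) p hp
  refine ⟨fun p => S.aC σ (α (S.act σ⁻¹ p)), fun p hp => ?_, fun τ hτ p hp => ?_,
    fun p hp => ?_⟩
  · exact S.tz_act S.K le_rfl σ hσ _ (hα _ (hact p hp))
  · have hτ' : σ⁻¹ * τ * σ ∈ Fix K' := by
      intro x hx
      change σ⁻¹ (τ (σ x)) = x
      rw [hτ _ ((hn σ hσ x).2 hx)]
      exact σ.symm_apply_apply x
    have e1 : S.act σ⁻¹ (S.act τ p) = S.act (σ⁻¹ * τ * σ) (S.act σ⁻¹ p) := by
      rw [← S.act_mul, ← S.act_mul]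
      congr 1
      group
    beta_reduce
    rw [e1, hα' _ hτ' _ (hact p hp), ← aC_mul, ← aC_mul]
    congr 2
    group
  · rw [cW_apply hσ, aW_pt (inv_mem hσ), hv _ (hact p hp), aW_cl hσ]

/-- what is proved for all products of letters -/
structure Good (S : Sys) (K' : Fl) (e : Module.End ℚ S.W) : Prop where
  stab : S.Stab e
  comm : S.Comm K' e
  word : S.Word K' e
  mul : ∀ w, S.Word K' w → S.Word K' (e * w)

theorem Letter.good {K' : Fl} (h1 : S.K ≤ K') (h2 : K' ≤ clo S.K) {e : Module.End ℚ S.W}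
    (he : S.Letter K' e) : S.Good K' e :=
  ⟨he.stab h2, he.comm h1, he.word, fun _ hw => he.mul_word h1 h2 hw⟩

theorem Good.prod {K' : Fl} {e e' : Module.End ℚ S.W} (h : S.Good K' e) (h' : S.Good K' e') :
    S.Good K' (e * e') := by
  refine ⟨h.stab.mul h'.stab, h.comm.mul h'.comm h'.stab, h.mul _ h'.word, fun w hw => ?_⟩
  rw [mul_assoc]
  exact h.mul _ (h'.mul w hw)

/-- The ring generated by the correspondences which are zero on two-forms. -/
noncomputable def RR (S : Sys) (K' : Fl) : NonUnitalSubalgebra ℚ (Module.End ℚ S.W) :=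
  NonUnitalAlgebra.adjoin ℚ {e | S.Letter K' e}

theorem good_closure {K' : Fl} (h1 : S.K ≤ K') (h2 : K' ≤ clo S.K) {e : Module.End ℚ S.W}
    (he : e ∈ Subsemigroup.closure {e | S.Letter K' e}) : S.Good K' e := by
  induction he using Subsemigroup.closure_induction with
  | mem x hx => exact Letter.good h1 h2 hx
  | mul x y _ _ hx hy => exact hx.prod hy

/-- linear properties of the elements of the ring -/
theorem RR_induction {K' : Fl} (h1 : S.K ≤ K') (h2 : K' ≤ clo S.K)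
    {N : Submodule ℚ (Module.End ℚ S.W)} (h : ∀ e, S.Good K' e → e ∈ N)
    {e : Module.End ℚ S.W} (he : e ∈ S.RR K') : e ∈ N := by
  have h3 : e ∈ (S.RR K').toSubmodule := he
  unfold RR at h3
  rw [NonUnitalAlgebra.adjoin_eq_span] at h3
  exact (Submodule.span_le (p := N)).2 (fun x hx => h x (good_closure h1 h2 hx)) h3

theorem RR_V0 {K' : Fl} (h1 : S.K ≤ K') (h2 : K' ≤ clo S.K) {e : Module.End ℚ S.W}
    (he : e ∈ S.RR K') {v : S.W} (hv : v ∈ S.V0) : e v ∈ S.V0 := by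
  let N : Submodule ℚ (Module.End ℚ S.W) :=
    { carrier := {e | ∀ v ∈ S.V0, e v ∈ S.V0}
      add_mem' := fun {a b} ha hb v hv => S.V0.add_mem (ha v hv) (hb v hv)
      zero_mem' := fun v _ => S.V0.zero_mem
      smul_mem' := fun c {x} hx v hv => S.V0.smul_mem c (hx v hv) }
  exact RR_induction (N := N) h1 h2 (fun e he => he.stab.2) he v hv

theorem cW_RR {K' : Fl}
    (hn : ∀ σ ∈ Fix S.K, ∀ x, σ x ∈ K' ↔ x ∈ K') {σ : ℂ ≃+* ℂ} (hσ : σ ∈ Fix S.K)
    {e : Module.End ℚ S.W} (he : e ∈ S.RR K') : S.cW σ e ∈ S.RR K' := by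
  unfold RR at he
  induction he using NonUnitalAlgebra.adjoin_induction with
  | mem x hx => exact NonUnitalAlgebra.subset_adjoin ℚ (cW_letter hn hσ hx)
  | add x y _ _ hx hy => rw [map_add]; exact add_mem hx hy
  | zero => rw [map_zero]; exact zero_mem _
  | mul x y _ _ hx hy => rw [map_mul]; exact mul_mem hx hy
  | smul c x _ hx => rw [map_smul]; exact SMulMemClass.smul_mem c hx

theorem nil' {K' : Fl} (h1 : S.K ≤ K') (h2 : K' ≤ clo S.K)
    (hn : ∀ σ ∈ Fix S.K, ∀ x, σ x ∈ K' ↔ x ∈ K')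
    (hrep : ∀ (n : ℕ) (t : Fin n → ℂ), AlgebraicIndependent S.K t → ∀ σ ∈ Fix S.K,
      ∃ τ ∈ Fix (adj S.K (Set.range t)), σ⁻¹ * τ ∈ Fix K')
    {l : ℕ} (g : Fin (l + 1) → ℂ ≃+* ℂ)
    (hg : ∀ i, g i ∈ Fix S.K) (hg' : ∀ σ ∈ Fix S.K, ∃! i, (g i)⁻¹ * σ ∈ Fix K') :
    ∃ N : ℕ, 0 < N ∧ ∀ x : Fin N → Module.End ℚ S.W, (∀ i, x i ∈ S.RR K') →
      ∀ v ∈ S.V0, (List.ofFn x).prod v = 0 := by
  let J : Submodule ℚ (Module.End ℚ S.W) :=
    { carrier := {e | e ∈ S.RR K' ∧ ∀ v ∈ S.V0, e v = 0}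
      add_mem' := fun {a b} ha hb => ⟨add_mem ha.1 hb.1, fun v hv => by
        rw [LinearMap.add_apply, ha.2 v hv, hb.2 v hv, add_zero]⟩
      zero_mem' := ⟨zero_mem _, fun v _ => rfl⟩
      smul_mem' := fun c {x} hx => ⟨SMulMemClass.smul_mem c hx.1, fun v hv => by
        rw [LinearMap.smul_apply, hx.2 v hv, smul_zero]⟩ }
  have hJ : ∀ e, e ∈ J ↔ e ∈ S.RR K' ∧ ∀ v ∈ S.V0, e v = 0 := fun e => Iff.rfl
  obtain ⟨N, hN, h⟩ := nilpotent_of_trace (S.RR K').toSubmodule J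
    (fun x hx y hy => mul_mem (S := NonUnitalSubalgebra ℚ (Module.End ℚ S.W)) hx hy)
    (fun x hx => hx.1)
    (fun x hx y hy => ⟨mul_mem (S := NonUnitalSubalgebra ℚ (Module.End ℚ S.W)) hx hy.1,
      fun v hv => by
        change x (y v) = 0
        rw [hy.2 v hv, map_zero]⟩)
    (fun x hx y hy => ⟨mul_mem (S := NonUnitalSubalgebra ℚ (Module.End ℚ S.W)) hx.1 hy,
      fun v hv => hx.2 _ (RR_V0 h1 h2 hy hv)⟩)
    (fun i => S.cW (g i))
    (fun i x => ⟨fun hx => by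
      have h3 : S.cW (g i)⁻¹ (S.cW (g i) x) ∈ S.RR K' := cW_RR hn (inv_mem (hg i)) hx
      rw [← cW_mul (inv_mem (hg i)) (hg i), inv_mul_cancel, cW_one] at h3
      exact h3, fun hx => cW_RR hn (hg i) hx⟩)
    (fun x hx => ⟨sum_mem fun i _ => cW_RR hn (hg i) hx, by
      let N : Submodule ℚ (Module.End ℚ S.W) :=
        { carrier := {e | ∀ v ∈ S.V0, (∑ i, S.cW (g i) e) v = 0}
          add_mem' := fun {a b} ha hb v hv => by
            rw [Finset.sum_congr rfl fun i _ => map_add (S.cW (g i)) a b, Finset.sum_add_distrib,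
              LinearMap.add_apply, ha v hv, hb v hv, add_zero]
          zero_mem' := fun v _ => by
            rw [Finset.sum_congr rfl fun i _ => map_zero (S.cW (g i)), Finset.sum_const_zero]
            rfl
          smul_mem' := fun c {x} hx v hv => by
            rw [Finset.sum_congr rfl fun i _ => map_smul (S.cW (g i)) c x, ← Finset.smul_sum,
              LinearMap.smul_apply, hx v hv, smul_zero] }
      exact RR_induction (N := N) h1 h2
        (fun e he => trace_zero h1 hrep g hg hg' he.word he.comm) hx⟩)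
  exact ⟨N, hN, fun x hx => ((hJ _).1 (h x hx)).2⟩

/-- Nilpotence: there is one exponent for all correspondences over `K'` which are zero on
two-forms. -/
theorem nil (S : Sys) (K' : Fl) (h1 : S.K ≤ K') (h2 : K' ≤ clo S.K)
    (hn : ∀ σ ∈ Fix S.K, ∀ x, σ x ∈ K' ↔ x ∈ K') {l : ℕ} (g : Fin (l + 1) → ℂ ≃+* ℂ)
    (hg : ∀ i, g i ∈ Fix S.K) (hg' : ∀ σ ∈ Fix S.K, ∃! i, (g i)⁻¹ * σ ∈ Fix K') :
    ∃ N : ℕ, 0 < N ∧ ∀ x : Fin N → Module.End ℚ S.W, (∀ i, S.Letter K' (x i)) →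
      ∀ v ∈ S.V0, (List.ofFn x).prod v = 0 := by
  have := S.cK
  obtain ⟨N, hN, h⟩ := nil' h1 h2 hn
    (fun n t ht σ hσ => exists_rep_fix S.K K' h2 t ht hσ) g hg hg'
  exact ⟨N, hN, fun x hx => h x fun i => NonUnitalAlgebra.subset_adjoin ℚ (hx i)⟩

/-- the same for correspondences over a finitely generated algebraic extension of `K` -/
theorem nil_fin (S : Sys) (T : Finset ℂ) (hT : ∀ x ∈ T, x ∈ clo S.K) :
    ∃ N : ℕ, 0 < N ∧ ∀ x : Fin N → Module.End ℚ S.W,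
      (∀ i, S.Letter (adj S.K T) (x i)) → ∀ v ∈ S.V0, (List.ofFn x).prod v = 0 := by
  have := S.cK
  obtain ⟨K', h1, h2, hTK, hn, l, g, hg, hg'⟩ := exists_normal S.K T hT
  obtain ⟨N, hN, h⟩ := S.nil K' h1 h2 hn g hg hg'
  refine ⟨N, hN, fun x hx => h x fun i => ?_⟩
  obtain ⟨α, ha, hb, hc⟩ := hx i
  exact ⟨α, ha, fun σ hσ => hb σ (Fix_mono (adj_le h1 hTK) hσ), hc⟩

end Sys

end Pool.Agent.VGS
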