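import Pool.Agent.VGS.Ring

/-! Module Dom: points which are not generic are not seen by two-forms; the numbers by which
correspondences with arbitrary support act on two-forms are rational. -/

set_option autoImplicit false

open scoped LinearAlgebra.Projectivization
open MvPolynomial

namespace Pool.Agent.VGS

open Pool.Agent.LowDeg (surf IsSmoothForm det4)
open Pool.Agent.LowDeg.SmoothExtAux (det4_expand)

variable {F : MvPolynomial (Fin 4) ℂ} {d : ℕ}

namespace DomAux

theorem kills_clo {L : Fl} {D : Derivation ℤ ℂ ℂ} (h : Kills L D) : Kills (clo L) D := by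
  intro x hx
  have hx' : IsAlgebraic L.toSubfield x := mem_clo.1 hx
  let D' : Derivation L.toSubfield ℂ ℂ := Derivation.mk'
    { toFun := D
      map_add' := map_add D
      map_smul' := fun a x => by
        rw [Algebra.smul_def, D.leibniz]
        have ha : D (algebraMap L.toSubfield ℂ a) = 0 := h a a.2
        rw [ha, smul_zero, add_zero]
        rfl } (fun a b => D.leibniz a b)
  have hint : IsIntegral L.toSubfield x := hx'.isIntegral
  have h1 : D' (Polynomial.aeval x (minpoly L.toSubfield x)) =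
      Polynomial.aeval x (Polynomial.derivative (minpoly L.toSubfield x)) • D' x :=
    D'.map_aeval _ _
  rw [minpoly.aeval, map_zero] at h1
  have h2 : Polynomial.aeval x (Polynomial.derivative (minpoly L.toSubfield x)) ≠ 0 :=
    (minpoly.irreducible hint).separable.aeval_derivative_ne_zero (minpoly.aeval _ _)
  rcases smul_eq_zero.mp h1.symm with h3 | h3
  · exact absurd h3 h2
  · exact h3

theorem kills_adj {L : Fl} {D : Derivation ℤ ℂ ℂ} (h : Kills L D) {w : ℂ} (hw : D w = 0) :
    Kills (adj L {w}) D := by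
  intro x hx
  rw [mem_adj_iff] at hx
  induction hx using IntermediateField.adjoin_induction with
  | mem x hx => rw [Set.mem_singleton_iff.1 hx, hw]
  | algebraMap a => exact h a a.2
  | add x y _ _ hx hy => rw [map_add, hx, hy, add_zero]
  | inv x _ hx => rw [Derivation.leibniz_inv, hx, smul_zero]
  | mul x y _ _ hx hy => rw [D.leibniz, hx, hy, smul_zero, smul_zero, add_zero]

end DomAux

open DomAux

/-- Points which are not generic are not seen by two-forms. -/
theorem tau_of_not_gen (hd : 4 ≤ d) (hF : IsSmoothForm F d) (K : Fl) [Countable K]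
    (hFK : Coef K F) {D₁ D₂ : Derivation ℤ ℂ ℂ} (h₁ : Kills K D₁) (h₂ : Kills K D₂) {q : PP}
    (hq : q ∈ surf F) (hq' : q ∉ Gen K F) {f : MvPolynomial (Fin 4) ℂ}
    (hf : f.IsHomogeneous (d - 4)) : tau F D₁ D₂ f q = 0 := by
  by_cases hw : ∃ w ∈ adjP K q, w ∉ clo K
  · obtain ⟨w, hw, hw'⟩ := hw
    have hov := not_gen hd hF K hFK hq hq' hw hw'
    obtain ⟨z, hz, hzL, rfl⟩ := hov
    have hzF : aeval z F = 0 := (mem_surf_mk hF.hom hz).mp hq
    have hcomb : ∀ i, D₂ w * D₁ (z i) = D₁ w * D₂ (z i) := by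
      intro i
      have hD : Kills K (D₂ w • D₁ - D₁ w • D₂) := by
        intro x hx
        simp [h₁ x hx, h₂ x hx]
      have h3 := kills_clo (kills_adj hD (w := w) (by simp [mul_comm])) _ (hzL i)
      have h4 : D₂ w * D₁ (z i) - D₁ w * D₂ (z i) = 0 := by simpa using h3
      exact sub_eq_zero.1 h4
    have hJ : IsResC F D₁ D₂ z 0 := by
      intro v
      rw [zero_mul]
      by_cases ha : D₁ w = 0
      · by_cases hb : D₂ w = 0
        · have h5 : ∀ i, D₁ (z i) = 0 := fun i => kills_clo (kills_adj h₁ ha) _ (hzL i)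
          simp only [det4_expand, h5]
          ring
        · have h5 : ∀ i, D₁ (z i) = 0 := by
            intro i
            have h6 := hcomb i
            rw [ha, zero_mul] at h6
            exact (mul_eq_zero.1 h6).resolve_left hb
          simp only [det4_expand, h5]
          ring
      · have h5 : ∀ i, D₂ (z i) = (D₂ w / D₁ w) * D₁ (z i) := by
          intro i
          rw [div_mul_eq_mul_div, hcomb i, mul_div_cancel_left₀ _ ha]
        simp only [det4_expand, h5]
        ring
    rw [tau_eq hd hF hFK h₁ h₂ hz hzF hf hJ, mul_zero]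
  · push Not at hw
    have hov : Over (clo K) q := by
      have h3 := over_adjP K q
      refine h3.mono ?_
      exact fun x hx => hw x hx
    exact tau_over hd hF (hFK.mono (le_clo K)) (kills_clo h₁) (kills_clo h₂) hq hov hf

open Classical in
/-- the part of a cycle at the generic points -/
noncomputable def genPart (K : Fl) (F : MvPolynomial (Fin 4) ℂ) (z : Cy) : Cy :=
  z.filter (· ∈ Gen K F)

theorem tauC_genPart (hd : 4 ≤ d) (hF : IsSmoothForm F d) (K : Fl) [Countable K]
    (hFK : Coef K F) {D₁ D₂ : Derivation ℤ ℂ ℂ} (h₁ : Kills K D₁) (h₂ : Kills K D₂) {z : Cy}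
    (hz : ∀ q ∈ z.support, q ∈ surf F) {f : MvPolynomial (Fin 4) ℂ}
    (hf : f.IsHomogeneous (d - 4)) :
    tauC F D₁ D₂ f (genPart K F z) = tauC F D₁ D₂ f z := by
  classical
  have h3 : z = genPart K F z + z.filter (fun q => ¬ q ∈ Gen K F) := by
    rw [genPart]
    exact (Finsupp.filter_add_filter_not z _).symm
  conv_rhs => rw [h3, map_add]
  have h4 : tauC F D₁ D₂ f (z.filter (fun q => ¬ q ∈ Gen K F)) = 0 := by
    unfold tauC
    rw [Finsupp.linearCombination_apply, Finsupp.sum]
    refine Finset.sum_eq_zero fun q hq => ?_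
    rw [Finsupp.support_filter, Finset.mem_filter] at hq
    rw [tau_of_not_gen hd hF K hFK h₁ h₂ (hz q hq.1) hq.2 hf, smul_zero]
  rw [h4, add_zero]

theorem genPart_actC (hF : F.IsHomogeneous d) {K : Fl} (hFK : Coef K F) {σ : ℂ ≃+* ℂ}
    (hσ : σ ∈ Fix K) (z : Cy) : genPart K F (actC σ z) = actC σ (genPart K F z) := by
  classical
  ext q
  rw [actC_apply, genPart, genPart, Finsupp.filter_apply, Finsupp.filter_apply, actC_apply]
  have h1 : q ∈ Gen K F ↔ act σ⁻¹ q ∈ Gen K F := (act_mem_Gen hF hFK (inv_mem hσ)).symm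
  by_cases h : q ∈ Gen K F
  · rw [if_pos h, if_pos (h1.1 h)]
  · rw [if_neg h, if_neg fun h2 => h (h1.2 h2)]

/-- The numbers by which correspondences with arbitrary support act on two-forms are rational. -/
theorem scalars_rat (hd : 4 ≤ d) (hF : IsSmoothForm F d) (k : Fl) [Countable k] (hk : clo k = k)
    (hind : AlgebraicIndependent k
      (fun m : {m : Fin 4 →₀ ℕ // m.degree = d} => coeff m.1 F))
    (S : Finset ℂ) (hS : ∀ x ∈ S, x ∈ clo (cof k F)) {n : ℕ} (γ : Fin n → PP → Cy)
    (hγ : ∀ i, ∀ p ∈ Gen (cof k F) F, ∀ q ∈ (γ i p).support, q ∈ surf F)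
    (hγ' : ∀ i, ∀ σ ∈ Fix (adj (cof k F) (S : Set ℂ)), ∀ p ∈ Gen (cof k F) F,
      γ i (act σ p) = actC σ (γ i p)) (m : Fin n → ℂ)
    (hm : ∀ i, ∀ y ∈ Gen (cof k F) F, ∀ D₁ D₂ : Derivation ℤ ℂ ℂ, Kills (cof k F) D₁ →
      Kills (cof k F) D₂ → ∀ f : MvPolynomial (Fin 4) ℂ, f.IsHomogeneous (d - 4) →
        tauC F D₁ D₂ f (γ i y) = m i * tau F D₁ D₂ f y) :
    ∃ r : Fin n → ℚ, ∀ i, m i = r i := by
  classical
  have := countable_cof k F
  have hFK := coef_cof k F
  obtain ⟨r, hr, -⟩ := nil_main hd hF k hk hind S hS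
    (fun i p => genPart (cof k F) F (γ i p))
    (fun i => ⟨fun p hp q hq => by
      rw [genPart, Finsupp.support_filter, Finset.mem_filter] at hq
      exact hq.2, fun σ hσ p hp => by
      rw [hγ' i σ hσ p hp]
      exact genPart_actC hF.hom hFK (Fix_mono (le_adj _ _) hσ) _⟩) m
    (fun i y hy D₁ D₂ h₁ h₂ f hf => by
      rw [tauC_genPart hd hF (cof k F) hFK h₁ h₂ (hγ i y hy) hf]
      exact hm i y hy D₁ D₂ h₁ h₂ f hf)
  exact ⟨r, hr⟩

end Pool.Agent.VGS
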