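import Pool.Agent.VGS.Eff

/-! Module Eff2: the points of an effective correspondence over a generic point, without
the hypothesis that the correspondence is dominant. -/

set_option autoImplicit false

open scoped LinearAlgebra.Projectivization
open MvPolynomial

namespace Pool.Agent.VGS

open Pool.Agent.Chow0 (IsChowForm cyc Z0)
open Pool.Agent.LowDeg (surf IsSmoothForm EffCorr IsGenericPoint)

variable {Ω : Type} [Field Ω] [Algebra ℂ Ω] [IsAlgClosed Ω] {F : MvPolynomial (Fin 4) ℂ} {d : ℕ}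

/-- over a generic point the Chow form of an effective correspondence splits into points -/
theorem effT_chow (hd : 4 ≤ d) (hF : IsSmoothForm F d) {ξ : Fin 4 → Ω}
    (hξ : IsGenericPoint F ξ) (K K' : Fl) [Countable K] (hFK : Coef K F)
    (hK' : K' ≤ clo K) {w : ℕ} (Γ : EffCorr F ξ w) (hΓ : CoefE K' Γ) :
    ∀ p ∈ Gen K F, ∃ s : Multiset (surf F), IsChowForm (surf F) (Γ.at p.rep) s := by
  have hFκ : Coef (clo K) F := hFK.mono (le_clo K)
  have hΓκ : CoefE (clo K) Γ := fun m => (hΓ m).mono hK'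
  intro p hp
  obtain ⟨z, hz, hz0, -, hpz⟩ := gen_nrm hd hF hp 0
  have hp' : Projectivization.mk ℂ z hz ∈ Gen (clo K) F := by
    rw [gen_clo hd hF K hFK, ← hpz]
    exact hp
  obtain ⟨ι, hι, hιξ⟩ := exists_emb hd hF hξ (clo K) (clo_clo K) hFκ hz hz0 hp'
  obtain ⟨t, x, ht, hx, hx1, hs, hch⟩ :=
    eff_pts hd hF hξ (clo K) (clo_clo K) hFκ Γ hΓκ hz hz0 hp' ι hι hιξ
  rw [← hpz] at hch
  exact ⟨_, hch⟩

/-- `effT_isT` without `Dominant` -/
theorem effT_isT2 (hd : 4 ≤ d) (hF : IsSmoothForm F d) {ξ : Fin 4 → Ω}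
    (hξ : IsGenericPoint F ξ) (K K' : Fl) [Countable K] (hFK : Coef K F) (hKK' : K ≤ K')
    (hK' : K' ≤ clo K) {w : ℕ} (Γ : EffCorr F ξ w) (hΓ : CoefE K' Γ) :
    (∀ p ∈ Gen K F, ∃ s : Multiset (surf F), IsChowForm (surf F) (Γ.at p.rep) s) ∧
      (∀ p ∈ Gen K F, ∀ q ∈ (effT Γ p).support, q ∈ surf F) ∧
      ∀ σ ∈ Fix K', ∀ p ∈ Gen K F, effT Γ (act σ p) = actC σ (effT Γ p) := by
  have key := effT_chow hd hF hξ K K' hFK hK' Γ hΓ
  refine ⟨key, ?_, ?_⟩
  · intro p hp q hq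
    obtain ⟨s, hs⟩ := key p hp
    rw [effT_eq Γ hs] at hq
    obtain ⟨q', -, rfl⟩ := Multiset.mem_map.1 (mem_support_cycQ hq)
    exact q'.2
  · intro σ hσ p hp
    obtain ⟨s, hs⟩ := key p hp
    obtain ⟨s', hs'⟩ := key (act σ p)
      ((act_mem_Gen hF.hom hFK (Fix_mono hKK' hσ)).2 hp)
    rw [effT_eq Γ hs, effT_eq Γ hs', actC_cycQ]
    congr 1
    obtain ⟨a, ha, h1⟩ := at_act Γ hΓ hσ p
    have h2 : IsCh (Γ.at p.rep) (s.map Subtype.val) := hs
    have h3 : IsCh (Γ.at (act σ p).rep) (s'.map Subtype.val) := hs'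
    have h4 := (h2.map σ).C_mul ha
    rw [← h1] at h4
    exact h3.unique h4

end Pool.Agent.VGS
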