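import Pool.Agent.VGS.Move
import Pool.Agent.VGS.Fin0
import Pool.Agent.VGS.FrameDefs

/-! Module Mu: every point `q` of the surface is rationally equivalent to a cycle `mu q` of generic
points, obtained from lines with parameters. -/

set_option autoImplicit false

open scoped LinearAlgebra.Projectivization
open MvPolynomial

namespace Pool.Agent.VGS

open Pool.Agent.Chow0 (IsChowForm IsLink cyc Z0 ratTriv deg CH0 IsRep spec cl)
open Pool.Agent.LowDeg (surf IsSmoothForm)

variable {F : MvPolynomial (Fin 4) ℂ} {d : ℕ}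

/-- the restriction of `F` to the line `a + u b` -/
noncomputable def lnP (F : MvPolynomial (Fin 4) ℂ) (a b : Fin 4 → ℂ) : Polynomial ℂ :=
  aeval (fun i => Polynomial.C (a i) + Polynomial.X * Polynomial.C (b i)) F

/-- the intersection of the surface `F = 0` with the line `a + u b` -/
noncomputable def lnC (F : MvPolynomial (Fin 4) ℂ) (a b : Fin 4 → ℂ) : Cy :=
  cycQ ((lnP F a b).roots.map fun u => mkP fun i => a i + u * b i)

/-- the cycle `mu q`: the line through `a`, `b` minus the further points of the line through `q`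
and `b` -/
noncomputable def mu (F : MvPolynomial (Fin 4) ℂ) (a b : Fin 4 → ℂ) (q : PP) : Cy :=
  lnC F a b - (lnC F q.rep b - Finsupp.single q 1)

theorem lnP_eval (a b : Fin 4 → ℂ) (u : ℂ) :
    (lnP F a b).eval u = aeval (fun i => a i + u * b i) F := by
  rw [lnP, mv_eval]
  refine congrArg (fun z => aeval z F) (funext fun i => ?_)
  rw [Polynomial.eval_add, Polynomial.eval_mul, Polynomial.eval_X, Polynomial.eval_C,
    Polynomial.eval_C]

theorem lnP_ne (hF : F.IsHomogeneous d) {a b : Fin 4 → ℂ} (hb : aeval b F ≠ 0) :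
    lnP F a b ≠ 0 := by
  intro h0
  have h1 := (mv_line hF a b).2
  unfold lnP at h0
  rw [h0, Polynomial.coeff_zero] at h1
  exact hb h1.symm

/-! ### independence of the scaling, equivariance -/

theorem lnP_smul (hF : F.IsHomogeneous d) {a b : Fin 4 → ℂ} {c : ℂ} (hc : c ≠ 0) :
    (lnP F a b).comp (Polynomial.C c⁻¹ * Polynomial.X + Polynomial.C 0) * Polynomial.C (c ^ d) =
      lnP F (fun i => c * a i) b := by
  refine Polynomial.funext fun u => ?_
  rw [Polynomial.eval_mul, Polynomial.eval_comp, lnP_eval, lnP_eval, Polynomial.eval_C, mul_comm]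
  refine (aeval_scale hF fun i => ?_).symm
  simp only [Polynomial.eval_add, Polynomial.eval_mul, Polynomial.eval_C, Polynomial.eval_X]
  field_simp
  ring

theorem mkP_smul {z : Fin 4 → ℂ} {c : ℂ} (hc : c ≠ 0) (hz : z ≠ 0) :
    mkP (fun i => c * z i) = mkP z := by
  have h1 : (fun i => c * z i) ≠ 0 := by
    intro h
    apply hz
    funext i
    have := congrFun h i
    simpa [hc] using this
  rw [mkP_eq h1, mkP_eq hz]
  exact mk_eq_mk_of_mul h1 hz fun i => rfl

theorem lnC_smul (hF : F.IsHomogeneous d) {a b : Fin 4 → ℂ} {c : ℂ} (hc : c ≠ 0)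
    (hn : ∀ u ∈ (lnP F a b).roots, (fun i => a i + u * b i) ≠ 0) :
    lnC F (fun i => c * a i) b = lnC F a b := by
  have hcd : c ^ d ≠ 0 := pow_ne_zero _ hc
  have hu : IsUnit c⁻¹ := (isUnit_iff_ne_zero.2 (inv_ne_zero hc))
  have h1 : (lnP F a b).roots = (lnP F (fun i => c * a i) b).roots.map fun x => c⁻¹ * x + 0 := by
    rw [← lnP_smul hF hc, mul_comm, Polynomial.roots_C_mul _ hcd,
      Polynomial.map_roots_comp_C_mul_X_add_C _ _ _ hu]
  unfold lnC
  rw [h1, Multiset.map_map]
  congr 1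
  refine Multiset.map_congr rfl fun u hu' => ?_
  have h2 : c⁻¹ * u + 0 ∈ (lnP F a b).roots := by
    rw [h1]
    exact Multiset.mem_map_of_mem _ hu'
  rw [Function.comp_apply, ← mkP_smul hc (hn _ h2)]
  congr 1
  funext i
  field_simp
  ring

theorem mu_act_mkP (σ : ℂ ≃+* ℂ) {z : Fin 4 → ℂ} (hz : z ≠ 0) :
    act σ (mkP z) = mkP fun i => σ (z i) := by
  rw [mkP_eq hz, mkP_eq (map_ne_zero' σ hz)]
  exact act_mk σ z hz _

theorem lnP_map {L : Fl} (hL : Coef L F) {σ : ℂ ≃+* ℂ} (hσ : σ ∈ Fix L) (a b : Fin 4 → ℂ) :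
    (lnP F a b).map (σ : ℂ →+* ℂ) = lnP F (fun i => σ (a i)) fun i => σ (b i) := by
  refine Polynomial.funext fun u => ?_
  obtain ⟨v, rfl⟩ := σ.surjective u
  have h1 : σ v = (σ : ℂ →+* ℂ) v := rfl
  rw [h1, Polynomial.eval_map_apply, lnP_eval, lnP_eval, RingEquiv.coe_toRingHom,
    ← aeval_fix hL hσ]
  refine congrArg (fun z => aeval z F) (funext fun i => ?_)
  rw [map_add, map_mul]

theorem lnC_act {L : Fl} (hL : Coef L F) {σ : ℂ ≃+* ℂ} (hσ : σ ∈ Fix L) {a b : Fin 4 → ℂ}
    (hn : ∀ u ∈ (lnP F a b).roots, (fun i => a i + u * b i) ≠ 0) :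
    lnC F (fun i => σ (a i)) (fun i => σ (b i)) = actC σ (lnC F a b) := by
  unfold lnC
  rw [actC_cycQ, ← lnP_map hL hσ, (IsAlgClosed.splits (lnP F a b)).roots_map, Multiset.map_map,
    Multiset.map_map]
  congr 1
  refine Multiset.map_congr rfl fun u hu => ?_
  rw [Function.comp_apply, Function.comp_apply, mu_act_mkP σ (hn u hu)]
  congr 1
  funext i
  rw [map_add, map_mul]
  rfl

/-- the multiset of points of the surface on the line -/
theorem ln_ms (hF : F.IsHomogeneous d) {a b : Fin 4 → ℂ} {r : Multiset ℂ}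
    (hr : ∀ u ∈ r, u ∈ (lnP F a b).roots)
    (hn : ∀ u ∈ r, (fun i => a i + u * b i) ≠ 0) :
    ∃ s : Multiset (surf F), Multiset.Rel (fun u (p : surf F) =>
      IsRep (fun i => a i + u * b i) p.1) r s ∧
      cycQ (s.map Subtype.val) = cycQ (r.map fun u => mkP fun i => a i + u * b i) := by
  obtain ⟨s, hs, -⟩ := mv_rel (F := F) (P := fun _ => True)
    (g := fun u i => a i + u * b i) r (by
      intro u hu
      have h1 := (Polynomial.mem_roots'.1 (hr u hu)).2
      rw [Polynomial.IsRoot.def, lnP_eval] at h1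
      exact ⟨⟨Projectivization.mk ℂ _ (hn u hu), (mem_surf_mk hF (hn u hu)).2 h1⟩,
        ⟨hn u hu, rfl⟩, trivial⟩)
  refine ⟨s, hs, ?_⟩
  congr 1
  symm
  rw [← Multiset.rel_eq, Multiset.rel_map]
  refine hs.mono fun u _ p _ hup => ?_
  obtain ⟨hv, hp⟩ := hup
  rw [mkP_eq hv, hp]

/-- two lines have rationally equivalent intersections with the surface -/
theorem ln_pencil (hF : F.IsHomogeneous d) {a₀ b₀ a₁ b₁ : Fin 4 → ℂ} (h0 : aeval b₀ F ≠ 0)
    (h1 : aeval b₁ F ≠ 0) (hn0 : ∀ u ∈ (lnP F a₀ b₀).roots, (fun i => a₀ i + u * b₀ i) ≠ 0)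
    (hn1 : ∀ u ∈ (lnP F a₁ b₁).roots, (fun i => a₁ i + u * b₁ i) ≠ 0) :
    lnC F a₀ b₀ - lnC F a₁ b₁ ∈ ratQ F := by
  obtain ⟨A, hA⟩ : ∃ A : Fin 4 → Polynomial ℂ, ∀ i, A i =
      Polynomial.C (a₀ i) + Polynomial.X * Polynomial.C (a₁ i - a₀ i) := ⟨_, fun _ => rfl⟩
  obtain ⟨B, hB⟩ : ∃ B : Fin 4 → Polynomial ℂ, ∀ i, B i =
      Polynomial.C (b₀ i) + Polynomial.X * Polynomial.C (b₁ i - b₀ i) := ⟨_, fun _ => rfl⟩
  obtain ⟨H, hH⟩ : ∃ H : Fin 4 → Polynomial (Polynomial ℂ), H = fun i =>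
      Polynomial.C (A i) + Polynomial.X * Polynomial.C (B i) := ⟨_, rfl⟩
  have hspec : ∀ t u i, (spec t (H i)).eval u =
      (a₀ i + t * (a₁ i - a₀ i)) + u * (b₀ i + t * (b₁ i - b₀ i)) := by
    intro t u i
    rw [hH, spec]
    simp [hA, hB]
  obtain ⟨hQd, hQc⟩ := mv_line hF A B
  rw [← hH] at hQd hQc
  have hHd : ∀ i, (H i).natDegree ≤ 1 := by
    intro i
    rw [hH]
    refine (Polynomial.natDegree_add_le _ _).trans (max_le ?_ ?_)
    · rw [Polynomial.natDegree_C]
      exact Nat.zero_le _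
    · rw [mul_comm]
      exact (Polynomial.natDegree_C_mul_le _ _).trans Polynomial.natDegree_X_le
  have hc0 : ((aeval H F : Polynomial (Polynomial ℂ)).coeff d).eval 0 ≠ 0 := by
    rw [hQc, mv_eval]
    have : (fun i => (B i).eval 0) = b₀ := by
      funext i
      rw [hB]
      simp
    rw [this]
    exact h0
  have hc1 : ((aeval H F : Polynomial (Polynomial ℂ)).coeff d).eval 1 ≠ 0 := by
    rw [hQc, mv_eval]
    have : (fun i => (B i).eval 1) = b₁ := by
      funext i
      rw [hB]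
      simp
    rw [this]
    exact h1
  have hS : ∀ t u : ℂ, (spec t (aeval H F)).eval u = 0 →
      ∀ hv : (fun i => (spec t (H i)).eval u) ≠ 0, Projectivization.mk ℂ _ hv ∈ surf F := by
    intro t u h hv
    rw [mv_eval2] at h
    exact (mem_surf_mk hF hv).2 h
  have hq0 : spec 0 (aeval H F) = lnP F a₀ b₀ := by
    refine Polynomial.funext fun u => ?_
    rw [mv_eval2, lnP_eval]
    refine congrArg (fun z => aeval z F) (funext fun i => ?_)
    rw [hspec]
    ring
  have hq1 : spec 1 (aeval H F) = lnP F a₁ b₁ := by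
    refine Polynomial.funext fun u => ?_
    rw [mv_eval2, lnP_eval]
    refine congrArg (fun z => aeval z F) (funext fun i => ?_)
    rw [hspec]
    ring
  obtain ⟨s, hs, hs'⟩ := ln_ms hF (fun u hu => hu) hn0
  obtain ⟨t, ht, ht'⟩ := ln_ms hF (fun u hu => hu) hn1
  have e0 : (fun (u : ℂ) (p : surf F) => IsRep (fun i => a₀ i + u * b₀ i) p.1) =
      fun (u : ℂ) (p : surf F) => IsRep (fun i => (spec 0 (H i)).eval u) p.1 := by
    funext u p
    congr 1
    funext i
    rw [hspec]
    ring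
  have e1 : (fun (u : ℂ) (p : surf F) => IsRep (fun i => a₁ i + u * b₁ i) p.1) =
      fun (u : ℂ) (p : surf F) => IsRep (fun i => (spec 1 (H i)).eval u) p.1 := by
    funext u p
    congr 1
    funext i
    rw [hspec]
    ring
  rw [e0, ← hq0] at hs
  rw [e1, ← hq1] at ht
  have key : cl s = cl t := Chow0.cl_eq_of_pencil hQd hHd hS hc0 hc1 hs ht
  rw [← Chow0.mk_cyc, ← Chow0.mk_cyc, QuotientAddGroup.eq] at key
  have h2 : toCy F (-cyc s + cyc t) ∈ ratQ F := by
    refine AddSubgroup.closure_induction (p := fun x _ => toCy F x ∈ ratQ F) ?_ ?_ ?_ ?_ key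
    · rintro x ⟨s₀, s₁, hl, rfl⟩
      rw [map_sub, toCy_cyc, toCy_cyc]
      exact Submodule.subset_span ⟨s₀, s₁, hl, rfl⟩
    · rw [map_zero]
      exact (ratQ F).zero_mem
    · intro x y _ _ hx hy
      rw [map_add]
      exact (ratQ F).add_mem hx hy
    · intro x _ hx
      rw [map_neg]
      exact (ratQ F).neg_mem hx
  rw [map_add, map_neg, toCy_cyc, toCy_cyc, hs', ht'] at h2
  have h3 := (ratQ F).neg_mem h2
  have e : lnC F a₀ b₀ - lnC F a₁ b₁ = -(-(lnC F a₀ b₀) + lnC F a₁ b₁) := by abel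
  rw [e]
  exact h3

/-! ### the parameters -/

/-- the parameters are in general position -/
structure IsAB (F : MvPolynomial (Fin 4) ℂ) (a b : Fin 4 → ℂ) : Prop where
  ne : aeval b F ≠ 0
  lin : ∀ u : ℂ, (fun i => a i + u * b i) ≠ 0

theorem isAB_of_ind (hd : 4 ≤ d) (hF : IsSmoothForm F d) {K L : Fl} (hFK : Coef K F) (hKL : K ≤ L)
    {a b : Fin 4 → ℂ} (hb : AlgebraicIndependent L b)
    (ha : AlgebraicIndependent (adj L (Set.range b)) a) : IsAB F a b := by
  refine ⟨fun h => ?_, fun u => ?_⟩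
  · exact (LowDeg.ExistsAux.irreducible_of_smooth (by omega) hF).ne_zero
      (ai_iff.1 hb F (hFK.mono hKL) h)
  · exact mv_ne ha (fun i => subset_adj _ _ ⟨i, rfl⟩) one_ne_zero (α := u)
      (p := fun i => a i + u * b i) fun i => by ring

theorem line_ne (hF : F.IsHomogeneous d) {b z : Fin 4 → ℂ} (hb : aeval b F ≠ 0) (hz : z ≠ 0)
    (hzF : aeval z F = 0) (u : ℂ) : (fun i => z i + u * b i) ≠ 0 := by
  intro h
  have h1 : ∀ i, z i = -u * b i := fun i => by
    have := congrFun h i
    rw [Pi.zero_apply] at this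
    linear_combination this
  have h2 := aeval_scale hF h1
  rw [hzF] at h2
  rcases mul_eq_zero.1 h2.symm with h3 | h3
  · have h4 : -u = 0 := eq_zero_of_pow_eq_zero h3
    apply hz
    funext i
    rw [h1 i, h4, zero_mul, Pi.zero_apply]
  · exact hb h3

theorem supp_cycQ {s : Multiset PP} {q : PP} (hq : q ∈ (cycQ s).support) : q ∈ s := by
  classical
  rw [Finsupp.mem_support_iff, cycQ_apply] at hq
  exact Multiset.count_ne_zero.1 fun h => hq (by rw [h, Nat.cast_zero])

theorem lnC_rep (hF : F.IsHomogeneous d) {b z : Fin 4 → ℂ} (hb : aeval b F ≠ 0) (hz : z ≠ 0)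
    (hzF : aeval z F = 0) :
    lnC F (Projectivization.mk ℂ z hz : PP).rep b = lnC F z b := by
  obtain ⟨c, hc⟩ := Projectivization.exists_smul_eq_mk_rep ℂ z hz
  rw [← hc]
  exact lnC_smul hF (a := z) (c := (c : ℂ)) c.ne_zero fun u _ => line_ne hF hb hz hzF u

/-- equivariance -/
theorem mu_act (hF : F.IsHomogeneous d) {a b : Fin 4 → ℂ} (hab : IsAB F a b) {L : Fl}
    (hL : Coef L F) (ha : ∀ i, a i ∈ L) (hb : ∀ i, b i ∈ L) {σ : ℂ ≃+* ℂ} (hσ : σ ∈ Fix L)
    {q : PP} (hq : q ∈ surf F) : mu F a b (act σ q) = actC σ (mu F a b q) := by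
  have ha' : (fun i => σ (a i)) = a := funext fun i => hσ _ (ha i)
  have hb' : (fun i => σ (b i)) = b := funext fun i => hσ _ (hb i)
  have hqF : aeval q.rep F = 0 := hq
  have h1 : lnC F a b = actC σ (lnC F a b) := by
    rw [← lnC_act hL hσ fun u _ => hab.lin u, ha', hb']
  have h2 : lnC F (act σ q).rep b = actC σ (lnC F q.rep b) := by
    rw [← lnC_act hL hσ fun u _ => line_ne hF hab.ne q.rep_nonzero hqF u, hb']
    have hz := map_ne_zero' σ q.rep_nonzero
    have hzF : aeval (fun i => σ (q.rep i)) F = 0 := by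
      rw [aeval_fix hL hσ, hqF, map_zero]
    exact lnC_rep hF hab.ne hz hzF
  unfold mu
  rw [map_sub, map_sub, ← h1, ← h2, actC_single]

/-- the cycle `mu q` is rationally equivalent to `q` -/
theorem mu_rat (hF : F.IsHomogeneous d) {a b : Fin 4 → ℂ} (hab : IsAB F a b) {q : PP}
    (hq : q ∈ surf F) : Finsupp.single q 1 - mu F a b q ∈ ratQ F := by
  have hqF : aeval q.rep F = 0 := hq
  have h := ln_pencil hF hab.ne hab.ne (a₀ := q.rep) (a₁ := a)
    (fun u _ => line_ne hF hab.ne q.rep_nonzero hqF u) fun u _ => hab.lin u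
  have e : Finsupp.single q (1 : ℚ) - mu F a b q = lnC F q.rep b - lnC F a b := by
    unfold mu
    abel
  rw [e]
  exact h

/-- the cycle `mu q` consists of generic points -/
theorem mu_gen (hd : 4 ≤ d) (hF : IsSmoothForm F d) (K : Fl) [Countable K] {L : Fl}
    (hFK : Coef K F) (hKL : K ≤ L) {a b : Fin 4 → ℂ} (hb : AlgebraicIndependent L b)
    (ha : AlgebraicIndependent (adj L (Set.range b)) a) {q : PP} (hq : q ∈ surf F)
    (hqL : Over L q) : ∀ x ∈ (mu F a b q).support, x ∈ Gen K F := by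
  classical
  have hab := isAB_of_ind hd hF hFK hKL hb ha
  obtain ⟨z, hz, hzL, rfl⟩ := hqL
  have hzF : aeval z F = 0 := (mem_surf_mk hF.hom hz).1 hq
  have hne : lnP F z b ≠ 0 := lnP_ne hF.hom hab.ne
  have hroot : (0 : ℂ) ∈ (lnP F z b).roots := by
    rw [Polynomial.mem_roots hne, Polynomial.IsRoot.def, lnP_eval]
    have : (fun i => z i + 0 * b i) = z := by
      funext i
      ring
    rw [this]
    exact hzF
  obtain ⟨r, hr⟩ := Multiset.exists_cons_of_mem hroot
  -- the line through `q` is transversal at `q`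
  obtain ⟨i₀, hi₀⟩ := hF.smooth z hz hzF
  have htr : ∑ i, aeval z (pderiv i F) * b i ≠ 0 := by
    intro h0
    have h1 : (∑ i, C (aeval z (pderiv i F)) * X i : MvPolynomial (Fin 4) ℂ) = 0 := by
      refine ai_iff.1 hb _ ?_ ?_
      · intro m
        rw [coeff_sum]
        refine sum_mem fun i _ => ?_
        rw [coeff_C_mul]
        exact mul_mem (aeval_mem ((hFK.pderiv i).mono hKL) hzL) (mv_coef_X i m)
      · rw [map_sum, ← h0]
        refine Finset.sum_congr rfl fun i _ => ?_
        rw [map_mul, aeval_C, aeval_X]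
        rfl
    have h2 := congrArg (coeff (Finsupp.single i₀ 1)) h1
    rw [coeff_sum, Finset.sum_eq_single i₀, coeff_C_mul, coeff_X, if_pos rfl, mul_one,
      coeff_zero] at h2
    · exact hi₀ h2
    · intro j _ hj
      rw [coeff_C_mul, coeff_X, if_neg, mul_zero]
      intro h
      exact hj ((Finsupp.single_left_inj one_ne_zero).1 h)
    · intro h
      exact absurd (Finset.mem_univ i₀) h
  have hqd : (Polynomial.derivative (lnP F z b)).eval 0 ≠ 0 := by
    rw [lnP, mv_chain, Polynomial.eval_finsetSum]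
    have : ∀ i, (aeval (fun i => Polynomial.C (z i) + Polynomial.X * Polynomial.C (b i))
        (pderiv i F) * Polynomial.derivative
          (Polynomial.C (z i) + Polynomial.X * Polynomial.C (b i)) : Polynomial ℂ).eval 0 =
        aeval z (pderiv i F) * b i := by
      intro i
      rw [Polynomial.eval_mul, mv_eval]
      congr 1
      · refine congrArg (fun z => aeval z (pderiv i F)) (funext fun j => ?_)
        simp
      · simp
    rw [Finset.sum_congr rfl fun i _ => this i]
    exact htr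
  have hr0 : (0 : ℂ) ∉ r := by
    intro h0
    have h1 : 2 ≤ (lnP F z b).rootMultiplicity 0 := by
      rw [← Polynomial.count_roots, hr, Multiset.count_cons_self]
      have := Multiset.one_le_count_iff_mem.2 h0
      omega
    have h2 := (Polynomial.one_lt_rootMultiplicity_iff_isRoot hne).1 (by omega :
      1 < (lnP F z b).rootMultiplicity 0)
    exact hqd h2.2
  have hz0 : (fun i => z i + 0 * b i) = z := by
    funext i
    ring
  have e1 : lnC F z b = Finsupp.single (Projectivization.mk ℂ z hz) 1 +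
      cycQ (r.map fun u => mkP fun i => z i + u * b i) := by
    unfold lnC
    rw [hr, Multiset.map_cons, cycQ_cons, hz0, mkP_eq hz]
  have e2 : mu F a b (Projectivization.mk ℂ z hz) =
      lnC F a b - cycQ (r.map fun u => mkP fun i => z i + u * b i) := by
    unfold mu
    rw [lnC_rep hF.hom hab.ne hz hzF, e1]
    abel
  intro x hx
  rw [e2] at hx
  rcases Finset.mem_union.1 (Finsupp.support_sub hx) with h | h
  · obtain ⟨u, hu, rfl⟩ := Multiset.mem_map.1 (supp_cycQ h)
    have h1 := (Polynomial.mem_roots'.1 hu).2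
    rw [Polynomial.IsRoot.def, lnP_eval] at h1
    rw [mkP_eq (hab.lin u)]
    exact mv_gen hd hF K hFK (hKL.trans (le_adj _ _)) ha (fun i => subset_adj _ _ ⟨i, rfl⟩)
      one_ne_zero (α := u) (fun i => by ring) (hab.lin u) h1
  · obtain ⟨u, hu, rfl⟩ := Multiset.mem_map.1 (supp_cycQ h)
    have hu0 : u ≠ 0 := by
      rintro rfl
      exact hr0 hu
    have h1 : (lnP F z b).eval u = 0 := by
      have h2 : u ∈ (lnP F z b).roots := by
        rw [hr]
        exact Multiset.mem_cons_of_mem hu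
      exact (Polynomial.mem_roots'.1 h2).2
    rw [lnP_eval] at h1
    have hn := line_ne hF.hom hab.ne hz hzF u
    rw [mkP_eq hn]
    exact mv_gen hd hF K hFK hKL hb hzL hu0 (α := 1) (fun i => by ring) hn h1

/-! ### the parameters of a point -/

theorem mu_split {L : Fl} {s : Fin (4 + 4) → ℂ} (hs : AlgebraicIndependent L s) :
    AlgebraicIndependent L (fun i : Fin 4 => s (Fin.castAdd 4 i)) ∧
      AlgebraicIndependent (adj L (Set.range fun i : Fin 4 => s (Fin.castAdd 4 i)))
        fun i : Fin 4 => s (Fin.natAdd 4 i) := by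
  apply ai_sum.1
  have h1 : Sum.elim (fun i : Fin 4 => s (Fin.castAdd 4 i)) (fun i : Fin 4 => s (Fin.natAdd 4 i)) =
      s ∘ finSumFinEquiv := by
    funext x
    rcases x with x | x
    · rfl
    · rfl
  rw [h1]
  exact hs.comp _ finSumFinEquiv.injective

/-- parameters which are independent over `L` remain independent over `L(p)`, if `p` is generic
over the field of the parameters -/
theorem mu_ind (hd : 4 ≤ d) (hF : IsSmoothForm F d) {L : Fl} [Countable L] (hFL : Coef L F)
    {ι : Type} [Countable ι] {s : ι → ℂ} (hs : AlgebraicIndependent L s) {p : PP}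
    (hp : p ∈ Gen (adj L (Set.range s)) F) : AlgebraicIndependent (clo (adjP (clo L) p)) s := by
  have : Countable (Set.range s) := (Set.countable_range s).to_subtype
  have hpL : p ∈ Gen L F := Gen_anti (le_adj _ _) F hp
  obtain ⟨z, hz, hz0, -, rfl⟩ := gen_nrm hd hF hp 0
  have hzF := (mem_surf_mk hF.hom hz).1 hp.1
  obtain ⟨j, k, hj, hk, hjk, hai, hall⟩ := gen_algInd hd hF L hFL hz hz0 hpL
  have h1 := (gen_iff hd hF (adj L (Set.range s)) (hFL.mono (le_adj _ _)) hz hzF hz0 hj hk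
    hjk).1 hp
  have h2 : AlgebraicIndependent L (Sum.elim s ![z j, z k]) := ai_sum.2 ⟨hs, h1⟩
  have h3 : AlgebraicIndependent L (Sum.elim ![z j, z k] s) := by
    have h4 : Sum.elim ![z j, z k] s = (Sum.elim s ![z j, z k]) ∘ Sum.swap := by
      funext x
      rcases x with x | x
      · rfl
      · rfl
    rw [h4]
    exact h2.comp _ (Equiv.sumComm (Fin 2) ι).injective
  have h4 := (ai_sum.1 h3).2
  have hr : Set.range ![z j, z k] = {z j, z k} := by
    ext a
    simp [or_comm]
  rw [hr] at h4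
  refine ai_mono_clo ?_ h4
  have h5 : adjP (clo L) (Projectivization.mk ℂ z hz) ≤ clo (adj L {z j, z k}) := by
    rw [adjP_mk hz hz0]
    refine adj_le (clo_mono (le_adj _ _)) ?_
    rintro _ ⟨l, rfl⟩
    exact hall l
  exact (clo_mono h5).trans (clo_clo _).le

theorem mu_inst (hd : 4 ≤ d) (hF : IsSmoothForm F d) (K : Fl) [Countable K] (hFK : Coef K F)
    (L : Fl) [Countable L] (hKL : K ≤ L) :
    ∃ (m : ℕ) (s : Fin m → ℂ) (μ : PP → Cy), AlgebraicIndependent L s ∧
      (∀ σ ∈ Fix (adj K (Set.range s)), ∀ q ∈ surf F, μ (act σ q) = actC σ (μ q)) ∧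
      ∀ p ∈ Gen (adj L (Set.range s)) F, ∀ q ∈ surf F,
        {y | ∃ σ ∈ Fix (clo L), act σ p = p ∧ act σ q = y}.Finite →
        (∀ x ∈ (μ q).support, x ∈ Gen K F) ∧ Finsupp.single q 1 - μ q ∈ ratQ F := by
  obtain ⟨s, hs⟩ := exists_algInd L (4 + 4)
  obtain ⟨hb, ha⟩ := mu_split hs
  have hab := isAB_of_ind hd hF hFK hKL hb ha
  refine ⟨4 + 4, s, mu F (fun i : Fin 4 => s (Fin.natAdd 4 i))
    (fun i : Fin 4 => s (Fin.castAdd 4 i)), hs, fun σ hσ q hq => ?_, fun p hp q hq hfin => ?_⟩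
  · have hsm : ∀ j, s j ∈ adj K (Set.range s) := fun j => subset_adj _ _ ⟨j, rfl⟩
    exact mu_act hF.hom hab (hFK.mono (le_adj _ _)) (fun i => hsm _) (fun i => hsm _) hσ hq
  · refine ⟨?_, mu_rat hF.hom hab hq⟩
    have hs2 := mu_ind hd hF (hFK.mono hKL) hs hp
    obtain ⟨hb2, ha2⟩ := mu_split hs2
    have hKL2 : K ≤ clo (adjP (clo L) p) :=
      hKL.trans ((le_clo L).trans ((le_adjP _ _).trans (le_clo _)))
    have hq2 : Over (clo (adjP (clo L) p)) q := by
      apply over_clo_of_finite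
      refine hfin.subset ?_
      rintro y ⟨σ, hσ, rfl⟩
      obtain ⟨h1, h2⟩ := mem_Fix_adjP.1 hσ
      exact ⟨σ, h1, h2, rfl⟩
    exact mu_gen hd hF K hFK hKL2 hb2 ha2 hq hq2

end Pool.Agent.VGS
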