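import Pool.Agent.VGS2.S1b
import Pool.Agent.VGS.RingC

/-! Module S1T: cycles which are not seen by the two-forms, and invariant correspondences over
`K(t)` with values in these cycles. -/

set_option autoImplicit false

open scoped LinearAlgebra.Projectivization
open MvPolynomial

namespace Pool.Agent.VGS

open Pool.Agent.LowDeg (surf IsSmoothForm)

variable {F : MvPolynomial (Fin 4) ℂ} {d : ℕ}

/-- The cycles on the surface `F = 0` on which all two-forms are zero, with respect to the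
derivations which are zero on `L`. -/
noncomputable def TZ (L : Fl) (F : MvPolynomial (Fin 4) ℂ) (d : ℕ) : Submodule ℚ Cy where
  carrier := {z | (∀ q ∈ z.support, q ∈ surf F) ∧ ∀ D₁ D₂ : Derivation ℤ ℂ ℂ, Kills L D₁ →
    Kills L D₂ → ∀ f : MvPolynomial (Fin 4) ℂ, f.IsHomogeneous (d - 4) → tauC F D₁ D₂ f z = 0}
  zero_mem' := ⟨fun q hq => by simp at hq, fun D₁ D₂ _ _ f _ => map_zero _⟩
  add_mem' := by
    classical
    rintro x y ⟨hx, hx'⟩ ⟨hy, hy'⟩
    refine ⟨fun q hq => ?_, fun D₁ D₂ h₁ h₂ f hf => ?_⟩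
    · rcases Finset.mem_union.1 (Finsupp.support_add hq) with h | h
      · exact hx q h
      · exact hy q h
    · rw [map_add, hx' D₁ D₂ h₁ h₂ f hf, hy' D₁ D₂ h₁ h₂ f hf, add_zero]
  smul_mem' := by
    rintro c x ⟨hx, hx'⟩
    refine ⟨fun q hq => hx q (Finsupp.support_smul hq), fun D₁ D₂ h₁ h₂ f hf => ?_⟩
    rw [map_smul, hx' D₁ D₂ h₁ h₂ f hf, smul_zero]

theorem mem_TZ {L : Fl} {z : Cy} : z ∈ TZ L F d ↔ (∀ q ∈ z.support, q ∈ surf F) ∧
    ∀ D₁ D₂ : Derivation ℤ ℂ ℂ, Kills L D₁ → Kills L D₂ → ∀ f : MvPolynomial (Fin 4) ℂ,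
      f.IsHomogeneous (d - 4) → tauC F D₁ D₂ f z = 0 := Iff.rfl

theorem tz_mono {L L' : Fl} (h : L ≤ L') : TZ L F d ≤ TZ L' F d := fun _ hz =>
  ⟨hz.1, fun D₁ D₂ h₁ h₂ f hf => hz.2 D₁ D₂ (fun x hx => h₁ x (h hx)) (fun x hx => h₂ x (h hx))
    f hf⟩

/-- transport of cycles with support in the surface -/
theorem tauC_actC' (hd : 4 ≤ d) (hF : IsSmoothForm F d) {K : Fl} (hFK : Coef K F)
    {D₁ D₂ : Derivation ℤ ℂ ℂ} (h₁ : Kills K D₁) (h₂ : Kills K D₂) {σ : ℂ ≃+* ℂ} (hσ : σ ∈ Fix K)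
    {f : MvPolynomial (Fin 4) ℂ} (hf : f.IsHomogeneous (d - 4)) {z : Cy}
    (hz : ∀ q ∈ z.support, q ∈ surf F) :
    tauC F (conjD σ D₁) (conjD σ D₂) (map (σ : ℂ →+* ℂ) f) (actC σ z) =
      σ (tauC F D₁ D₂ f z) := by
  have h1 : z = ∑ q ∈ z.support, Finsupp.single q (z q) := (Finsupp.sum_single z).symm
  rw [h1, map_sum, map_sum, map_sum, map_sum]
  refine Finset.sum_congr rfl fun q hq => ?_
  rw [actC_single, tauC_single, tauC_single, tau_act hd hF hFK h₁ h₂ hσ (hz q hq) hf,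
    Rat.smul_def, Rat.smul_def, map_mul, map_ratCast]

theorem support_actC {σ : ℂ ≃+* ℂ} {z : Cy} {q : PP} (hq : q ∈ (actC σ z).support) :
    act σ⁻¹ q ∈ z.support := by
  rw [Finsupp.mem_support_iff, actC_apply] at hq
  exact Finsupp.mem_support_iff.2 hq

theorem tz_act (hd : 4 ≤ d) (hF : IsSmoothForm F d) {L : Fl} (hFL : Coef L F) {σ : ℂ ≃+* ℂ}
    (hσ : σ ∈ Fix L) {z : Cy} (hz : z ∈ TZ L F d) : actC σ z ∈ TZ L F d := by
  refine ⟨fun q hq => ?_, fun D₁ D₂ h₁ h₂ f hf => ?_⟩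
  · have h1 := hz.1 _ (support_actC hq)
    exact (act_mem_surf hF.hom hFL (inv_mem hσ)).1 h1
  · have hσ' : σ⁻¹ ∈ Fix L := inv_mem hσ
    have k₁ := conjD_kills hσ' h₁
    have k₂ := conjD_kills hσ' h₂
    have hf' : (map ((σ⁻¹ : ℂ ≃+* ℂ) : ℂ →+* ℂ) f).IsHomogeneous (d - 4) := hf.map _
    have h1 := tauC_actC' hd hF hFL k₁ k₂ hσ hf' hz.1
    rw [conjD_conjD, conjD_conjD, map_symm_hom] at h1
    rw [h1, hz.2 _ _ k₁ k₂ _ hf', map_zero]

/-- The field of coefficients after an extension of the field of constants. -/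
theorem cof_adj (k : Fl) (F : MvPolynomial (Fin 4) ℂ) (T : Set ℂ) :
    cof (adj k T) F = adj (cof k F) T := by
  unfold cof
  rw [adj_adj, adj_adj, Set.union_comm]

theorem cof_eq_adj (hF : F.IsHomogeneous d) (k : Fl) :
    cof k F = adj k (Set.range fun m : {m : Fin 4 →₀ ℕ // m.degree = d} => coeff m.1 F) := by
  apply le_antisymm
  · refine adj_le (le_adj _ _) ?_
    rintro _ ⟨m, rfl⟩
    by_cases h : m.degree = d
    · exact subset_adj _ _ ⟨⟨m, h⟩, rfl⟩
    · change coeff m F ∈ _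
      rw [hF.coeff_eq_zero h]
      exact zero_mem _
  · refine adj_le (le_adj _ _) ?_
    rintro _ ⟨m, rfl⟩
    exact subset_adj _ _ ⟨m.1, rfl⟩

/-- The exchange of `t` and the coefficients. -/
theorem ind_adj (hF : F.IsHomogeneous d) (k : Fl)
    (hind : AlgebraicIndependent k
      (fun m : {m : Fin 4 →₀ ℕ // m.degree = d} => coeff m.1 F))
    {n : ℕ} {t : Fin n → ℂ} (ht : AlgebraicIndependent (cof k F) t) :
    AlgebraicIndependent (adj k (Set.range t))
      (fun m : {m : Fin 4 →₀ ℕ // m.degree = d} => coeff m.1 F) := by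
  rw [cof_eq_adj hF] at ht
  have h1 := ai_sum.2 ⟨hind, ht⟩
  have h2 : AlgebraicIndependent k (Sum.elim t
      (fun m : {m : Fin 4 →₀ ℕ // m.degree = d} => coeff m.1 F)) := by
    refine (algebraicIndependent_equiv' (Equiv.sumComm (Fin n) _) (f := Sum.elim
      (fun m : {m : Fin 4 →₀ ℕ // m.degree = d} => coeff m.1 F) t) ?_).2 h1
    ext (i | i) <;> rfl
  exact (ai_sum.1 h2).2

/-- **Theorem S** for an invariant correspondence over `K(t)` with values in `TZ`. -/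
theorem s1t (hd : 4 ≤ d) (hF : IsSmoothForm F d) (k : Fl) [Countable k]
    (hind : AlgebraicIndependent k
      (fun m : {m : Fin 4 →₀ ℕ // m.degree = d} => coeff m.1 F))
    {n : ℕ} (t : Fin n → ℂ) (ht : AlgebraicIndependent (cof k F) t) (α : PP → Cy)
    (hα : ∀ p ∈ Gen (adj (cof k F) (Set.range t)) F, α p ∈ TZ (adj (cof k F) (Set.range t)) F d)
    (he : ∀ σ ∈ Fix (adj (cof k F) (Set.range t)), ∀ p ∈ Gen (adj (cof k F) (Set.range t)) F,
      α (act σ p) = actC σ (α p)) :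
    ∀ p ∈ Gen (adj (cof k F) (Set.range t)) F, ∀ q ∈ Gen (adj (cof k F) (Set.range t)) F,
      α p - α q ∈ ratQ F := by
  have hc : Countable (Set.range t) := (Set.countable_range t).to_subtype
  have hind' := ind_adj hF.hom k hind ht
  rw [← cof_adj] at hα he ⊢
  obtain ⟨m, hm, h⟩ := s1_scalar hd hF (adj k (Set.range t)) hind' (α := α)
    (fun p hp => (hα p hp).1) he (s := 0) (fun y hy D₁ D₂ h₁ h₂ f hf => by
      rw [(hα y hy).2 D₁ D₂ h₁ h₂ f hf, zero_mul])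
  have hm0 : m = 0 := by exact_mod_cast hm.symm
  intro p hp q hq
  have h1 := h p hp q hq
  rwa [hm0, zero_smul, sub_zero] at h1

end Pool.Agent.VGS
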