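import Pool.Agent.VGS2.Sys
import Pool.Agent.VGS2.S1T
import Pool.Agent.VGS2.Mu

/-! Module Inst: the system of a surface in `ℙ³` with independent coefficients. -/

set_option autoImplicit false

open scoped LinearAlgebra.Projectivization
open MvPolynomial

namespace Pool.Agent.VGS

open Pool.Agent.Chow0 (IsChowForm IsLink cyc Z0 ratTriv)
open Pool.Agent.LowDeg (surf IsSmoothForm)

variable {F : MvPolynomial (Fin 4) ℂ} {d : ℕ}

theorem toCy_ratTriv {z : Z0 (surf F)} (hz : z ∈ ratTriv (surf F)) : toCy F z ∈ ratQ F := by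
  refine AddSubgroup.closure_induction (p := fun x _ => toCy F x ∈ ratQ F) ?_ ?_ ?_ ?_ hz
  · rintro x ⟨s₀, s₁, h, rfl⟩
    rw [map_sub, toCy_cyc, toCy_cyc]
    exact Submodule.subset_span ⟨s₀, s₁, h, rfl⟩
  · rw [map_zero]
    exact zero_mem _
  · intro x y _ _ hx hy
    rw [map_add]
    exact add_mem hx hy
  · intro x _ hx
    rw [map_neg]
    exact neg_mem hx

theorem degQ_cycQ (s : Multiset PP) :
    Finsupp.linearCombination ℚ (fun _ : PP => (1 : ℚ)) (cycQ s) = Multiset.card s := by
  induction s using Multiset.induction_on with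
  | empty => simp [cycQ]
  | cons a s ih =>
    rw [cycQ_cons, map_add, ih, Finsupp.linearCombination_single, Multiset.card_cons, one_smul]
    push_cast
    ring

theorem degQ_ratQ {z : Cy} (hz : z ∈ ratQ F) :
    Finsupp.linearCombination ℚ (fun _ : PP => (1 : ℚ)) z = 0 := by
  have h : ratQ F ≤ LinearMap.ker (Finsupp.linearCombination ℚ (fun _ : PP => (1 : ℚ))) := by
    refine Submodule.span_le.2 ?_
    rintro _ ⟨s₀, s₁, h, rfl⟩
    change Finsupp.linearCombination ℚ (fun _ : PP => (1 : ℚ)) _ = 0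
    rw [map_sub, degQ_cycQ, degQ_cycQ, Multiset.card_map, Multiset.card_map, card_link h, sub_self]
  exact h hz

theorem mem_support_cycQ {s : Multiset PP} {p : PP} (hp : p ∈ (cycQ s).support) : p ∈ s := by
  classical
  rw [Finsupp.mem_support_iff, cycQ_apply] at hp
  by_contra h
  exact hp (by rw [Multiset.count_eq_zero_of_notMem h]; rfl)

theorem moveQ (hd : 4 ≤ d) (hF : IsSmoothForm F d) (L : Fl) [Countable L]
    (hFL : Coef L F) {x : PP} (hx : x ∈ surf F) :
    ∃ z : Cy, (∀ p ∈ z.support, p ∈ Gen L F) ∧ Finsupp.single x 1 - z ∈ ratQ F := by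
  classical
  obtain ⟨s, t, hs, ht, h⟩ := exists_move hd hF L hFL ⟨x, hx⟩
  have h1 := toCy_ratTriv h
  rw [map_sub, map_add, toCy_of, toCy_cyc, toCy_cyc] at h1
  refine ⟨cycQ (t.map Subtype.val) - cycQ (s.map Subtype.val), fun p hp => ?_, ?_⟩
  · rcases Finset.mem_union.1 (Finsupp.support_sub hp) with h2 | h2
    · obtain ⟨q, hq, rfl⟩ := Multiset.mem_map.1 (mem_support_cycQ h2)
      exact ht q hq
    · obtain ⟨q, hq, rfl⟩ := Multiset.mem_map.1 (mem_support_cycQ h2)
      exact hs q hq
  · convert h1 using 1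
    abel

/-- The system of the surface `F = 0`, where `F` has independent coefficients over `k`. -/
noncomputable def sysS (hd : 4 ≤ d) (hF : IsSmoothForm F d) (k : Fl) [Countable k]
    (hind : AlgebraicIndependent k
      (fun m : {m : Fin 4 →₀ ℕ // m.degree = d} => coeff m.1 F)) : Sys where
  P := PP
  act := act
  act_one := act_one
  act_mul := act_mul
  X := surf F
  K := cof k F
  cK := inferInstance
  Gen := fun L => Gen L F
  rat := ratQ F
  TZ := fun L => TZ L F d
  act_X := fun σ hσ p hp => (act_mem_surf hF.hom (coef_cof k F) hσ).2 hp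
  gen_X := fun L p hp => hp.1
  gen_anti := fun L L' h => Gen_anti h F
  act_gen := fun L hL σ hσ p hp => (act_mem_Gen hF.hom ((coef_cof k F).mono hL) hσ).2 hp
  conj := fun p hp q hq => by
    have h := gen_clo hd hF (cof k F) (coef_cof k F)
    exact gen_conj hd hF (clo (cof k F)) ((coef_cof k F).mono (le_clo _)) (by rwa [h])
      (by rwa [h])
  rat_act := fun σ hσ z hz => actC_ratQ hF.hom (coef_cof k F) hσ hz
  rat_deg := fun z hz => degQ_ratQ hz
  move := fun L _ hL x hx => moveQ hd hF L ((coef_cof k F).mono hL) hx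
  tz_X := fun L z hz => hz.1
  tz_mono := fun L L' _ h => tz_mono h
  tz_act := fun L hL σ hσ z hz => tz_act hd hF ((coef_cof k F).mono hL) hσ hz
  s1t := fun n t ht α hα he => s1t hd hF k hind t ht α hα he
  mu := fun L _ hL => mu_inst hd hF (cof k F) (coef_cof k F) L hL

end Pool.Agent.VGS
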