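import Pool.Agent.VGS2.Fin2A
import Pool.Agent.VGS2.Inst
import Pool.Agent.VGS2.SysN
import Pool.Agent.VGS2.Dom
import Pool.Agent.VGS2.Eff2
import Pool.Agent.VGS.EffTau
import Pool.Agent.VGS.Move0

/-! Module Fin2: the main theorem for all correspondences and for the Chow group. -/

set_option autoImplicit false

open scoped LinearAlgebra.Projectivization
open MvPolynomial

namespace Pool.Agent.VGS

open Pool.Agent.Chow0 (IsChowForm IsLink cyc Z0 ratTriv CH0)
open Pool.Agent.LowDeg (surf IsSmoothForm EffCorr IsGenericPoint ActsByScalar)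

/-- `φ` is an endomorphism of the Chow group which maps the classes of the points `p` of `V` to
`b (Γ_p - Γ'_p) - a p`. -/
def ActsOnCH {Ω : Type} [Field Ω] [Algebra ℂ Ω] {F : MvPolynomial (Fin 4) ℂ} {ξ : Fin 4 → Ω}
    {w w' : ℕ} (Γ : EffCorr F ξ w) (Γ' : EffCorr F ξ w') (V : Set (surf F)) (a b : ℤ)
    (φ : AddMonoid.End (CH0 (surf F))) : Prop :=
  ∀ p ∈ V, ∀ s s' : Multiset (surf F), IsChowForm (surf F) (Γ.at p.1.rep) s →
    IsChowForm (surf F) (Γ'.at p.1.rep) s' →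
      φ (QuotientAddGroup.mk (FreeAbelianGroup.of p)) =
        b • (QuotientAddGroup.mk (cyc s) - QuotientAddGroup.mk (cyc s')) -
          a • QuotientAddGroup.mk (FreeAbelianGroup.of p)

section

variable {Ω : Type} [Field Ω] [Algebra ℂ Ω] {F : MvPolynomial (Fin 4) ℂ} {ξ : Fin 4 → Ω} {d : ℕ}

theorem ActsOnCH.phH {w w' : ℕ} {Γ : EffCorr F ξ w} {Γ' : EffCorr F ξ w'} {V : Set (surf F)}
    {a b : ℤ} {φ : AddMonoid.End (CH0 (surf F))} (h : ActsOnCH Γ Γ' V a b φ) {p : surf F}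
    (hp : p ∈ V) (h1 : IsChowForm (surf F) (Γ.at p.1.rep) (chs Γ p.1))
    (h2 : IsChowForm (surf F) (Γ'.at p.1.rep) (chs Γ' p.1)) :
    φ (mkC F (FreeAbelianGroup.of p)) =
      mkC F (VGS.phH Γ Γ' a b (FreeAbelianGroup.of p)) := by
  rw [phH_of, map_sub, map_zsmul, map_zsmul, map_sub]
  exact h p hp _ _ h1 h2

/-- the class of a point -/
theorem iota_phH {w w' : ℕ} (Γ : EffCorr F ξ w) (Γ' : EffCorr F ξ w') (a b : ℤ) (p : surf F) :
    iota F (mkC F (phH Γ Γ' a b (FreeAbelianGroup.of p))) =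
      (ratQ F).mkQ (b • (effT Γ p.1 - effT Γ' p.1) - a • (Finsupp.single p.1 (1 : ℚ) : Cy)) := by
  rw [iota_mkC, jz_phH_of]

theorem support_zsmul_sub {x y z : Cy} {X : Set PP} (hx : ∀ q ∈ x.support, q ∈ X)
    (hy : ∀ q ∈ y.support, q ∈ X) (hz : ∀ q ∈ z.support, q ∈ X) (a b : ℤ) :
    ∀ q ∈ (b • (x - y) - a • z).support, q ∈ X := by
  classical
  intro q hq
  by_contra h
  have h1 : x q = 0 := by
    by_contra h2
    exact h (hx q (Finsupp.mem_support_iff.2 h2))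
  have h3 : y q = 0 := by
    by_contra h2
    exact h (hy q (Finsupp.mem_support_iff.2 h2))
  have h4 : z q = 0 := by
    by_contra h2
    exact h (hz q (Finsupp.mem_support_iff.2 h2))
  rw [Finsupp.mem_support_iff] at hq
  apply hq
  rw [Finsupp.sub_apply, Finsupp.smul_apply, Finsupp.smul_apply, Finsupp.sub_apply, h1, h3, h4,
    sub_self, smul_zero, smul_zero, sub_self]

end

/-- nilpotence for the Chow group with rational coefficients -/
theorem nilS {F : MvPolynomial (Fin 4) ℂ} {d : ℕ} (hd : 4 ≤ d) (hF : IsSmoothForm F d) (k : Fl)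
    [Countable k] (hind : AlgebraicIndependent k
      (fun m : {m : Fin 4 →₀ ℕ // m.degree = d} => coeff m.1 F))
    (T : Finset ℂ) (hT : ∀ x ∈ T, x ∈ clo (cof k F)) :
    ∃ N : ℕ, 0 < N ∧ ∀ x : Fin N → Module.End ℚ (Cy ⧸ ratQ F),
      (∀ i, ∃ α : PP → Cy, (∀ p ∈ Gen (cof k F) F, α p ∈ TZ (cof k F) F d) ∧
        (∀ σ ∈ Fix (adj (cof k F) T), ∀ p ∈ Gen (cof k F) F, α (act σ p) = actC σ (α p)) ∧
        ∀ p ∈ Gen (cof k F) F,
          x i ((ratQ F).mkQ (Finsupp.single p (1 : ℚ))) = (ratQ F).mkQ (α p)) →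
      ∀ p ∈ surf F, ∀ q ∈ surf F, (List.ofFn x).prod
        ((ratQ F).mkQ (Finsupp.single p (1 : ℚ)) - (ratQ F).mkQ (Finsupp.single q (1 : ℚ))) = 0 := by
  obtain ⟨N, hN0, hN⟩ := Sys.nil_fin (sysS hd hF k hind) T hT
  exact ⟨N, hN0, fun x hx p hp q hq => hN x hx _ (Submodule.subset_span ⟨p, hp, q, hq, rfl⟩)⟩

/-- The main theorem, for pairs of points. -/
theorem main2' (F : MvPolynomial (Fin 4) ℂ) (d : ℕ) (hd : 4 ≤ d) (hF : F.IsHomogeneous d)
    (hind : AlgebraicIndependent ℚ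
      (fun m : {m : Fin 4 →₀ ℕ // m.degree = d} => coeff m.1 F))
    (Ω : Type) [Field Ω] [Algebra ℂ Ω] [IsAlgClosed Ω] (ξ : Fin 4 → Ω)
    (hξ : IsGenericPoint F ξ) (n : ℕ) (w w' : Fin n → ℕ) (Γ : ∀ i, EffCorr F ξ (w i))
    (Γ' : ∀ i, EffCorr F ξ (w' i)) (m : Fin n → ℂ)
    (hm : ∀ i, ActsByScalar F (d - 4) (Γ i) (Γ' i) (m i)) :
    ∃ (K : Fl) (_ : Countable K) (_ : Coef K F) (a b : Fin n → ℤ) (N M : ℕ)
      (D : ℕ → MvPolynomial (Fin 4) ℂ), (∀ p : surf F, p ∈ veryGen F D ↔ p.1 ∈ Gen K F) ∧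
      (∀ i, 0 < b i ∧ b i * m i = a i) ∧ 0 < M ∧
      (∀ j, (∃ e, (D j).IsHomogeneous e) ∧ ¬ F ∣ D j) ∧
      (∀ i, ∀ p ∈ veryGen F D, ∃ s s' : Multiset (surf F),
        IsChowForm (surf F) ((Γ i).at p.1.rep) s ∧ IsChowForm (surf F) ((Γ' i).at p.1.rep) s') ∧
      ∀ φ : Fin n → AddMonoid.End (CH0 (surf F)),
        (∀ i, ActsOnCH (Γ i) (Γ' i) (veryGen F D) (a i) (b i) (φ i)) →
        ∀ word : Fin N → Fin n, ∀ p ∈ veryGen F D, ∀ q ∈ veryGen F D,
          M • (List.ofFn fun j => φ (word j)).prod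
            (mkC F (FreeAbelianGroup.of p - FreeAbelianGroup.of q)) = 0 := by
  classical
  have hsm : IsSmoothForm F d := smooth_of_algInd (by omega) hF hind
  -- the ground field
  set S : Finset ℂ := Finset.univ.biUnion fun i => cfs (Γ i) ∪ cfs (Γ' i) with hS
  obtain ⟨k, hk, hkc, hindk, hSk⟩ := exists_ground hind S
  have hKc : Countable (cof k F) := countable_cof_fin k F
  have hFK : Coef (cof k F) F := coef_cof_fin k F
  have hFK' : Coef (clo (cof k F)) F := hFK.mono (le_clo _)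
  have hSK : ∀ x ∈ S, x ∈ clo (cof k F) := hSk
  have hKK' : cof k F ≤ adj (cof k F) S := le_adj _ _
  have hK'c : adj (cof k F) S ≤ clo (cof k F) := adj_le (le_clo _) fun x hx => hSK x hx
  have hcf : ∀ i, ∀ x ∈ cfs (Γ i), x ∈ S := fun i x hx =>
    Finset.mem_biUnion.2 ⟨i, Finset.mem_univ i, Finset.mem_union_left _ hx⟩
  have hcf' : ∀ i, ∀ x ∈ cfs (Γ' i), x ∈ S := fun i x hx =>
    Finset.mem_biUnion.2 ⟨i, Finset.mem_univ i, Finset.mem_union_right _ hx⟩
  have hcK : ∀ i, CoefE (adj (cof k F) S) (Γ i) := fun i =>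
    coefE_of _ fun x hx => subset_adj _ _ (hcf i x hx)
  have hcK' : ∀ i, CoefE (adj (cof k F) S) (Γ' i) := fun i =>
    coefE_of _ fun x hx => subset_adj _ _ (hcf' i x hx)
  have hT := fun i => effT_isT2 hd hsm hξ (cof k F) (adj (cof k F) S) hFK hKK' hK'c (Γ i) (hcK i)
  have hT' := fun i => effT_isT2 hd hsm hξ (cof k F) (adj (cof k F) S) hFK hKK' hK'c (Γ' i)
    (hcK' i)
  have htau : ∀ i, ∀ y ∈ Gen (cof k F) F, ∀ D₁ D₂ : Derivation ℤ ℂ ℂ, Kills (cof k F) D₁ →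
      Kills (cof k F) D₂ → ∀ f : MvPolynomial (Fin 4) ℂ, f.IsHomogeneous (d - 4) →
        tauC F D₁ D₂ f (effT (Γ i) y - effT (Γ' i) y) = m i * tau F D₁ D₂ f y := fun i =>
    effT_tau hd hsm hξ (cof k F) hFK (Γ i) (Γ' i) (fun m' => (hcK i m').mono hK'c)
      (fun m' => (hcK' i m').mono hK'c) (hm i)
  -- the scalars
  obtain ⟨r, hr⟩ := scalars_rat hd hsm k hkc hindk S hSK
    (fun i p => effT (Γ i) p - effT (Γ' i) p) (fun i p hp q hq => by
      rcases Finset.mem_union.1 (Finsupp.support_sub hq) with h | h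
      · exact (hT i).2.1 p hp q h
      · exact (hT' i).2.1 p hp q h)
    (fun i σ hσ p hp => by
      rw [map_sub, (hT i).2.2 σ hσ p hp, (hT' i).2.2 σ hσ p hp]) m htau
  obtain ⟨a, ha⟩ : ∃ a : Fin n → ℤ, a = fun i => (r i).num := ⟨_, rfl⟩
  obtain ⟨b, hb⟩ : ∃ b : Fin n → ℤ, b = fun i => ((r i).den : ℤ) := ⟨_, rfl⟩
  have hbpos : ∀ i, 0 < b i := fun i => by
    rw [hb]
    change (0 : ℤ) < ((r i).den : ℤ)
    exact_mod_cast (r i).pos
  have hbr : ∀ i, (b i : ℚ) * r i = a i := fun i => by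
    rw [ha, hb]
    push_cast
    exact Rat.den_mul_eq_num (r i)
  have hbm : ∀ i, (b i : ℂ) * m i = a i := fun i => by
    rw [hr i]
    have h1 := congrArg (fun x : ℚ => (x : ℂ)) (hbr i)
    push_cast at h1
    exact h1
  obtain ⟨D, hD, hDG⟩ := exists_enum hd hF (cof k F)
  -- nilpotence with rational coefficients
  obtain ⟨N, hN0, hN⟩ := nilS hd hsm k hindk S hSK
  have hchs : ∀ i, ∀ p : surf F, p.1 ∈ Gen (cof k F) F →
      IsChowForm (surf F) ((Γ i).at p.1.rep) (chs (Γ i) p.1) := fun i p hp =>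
    chs_spec _ _ ((hT i).1 p.1 hp)
  have hchs' : ∀ i, ∀ p : surf F, p.1 ∈ Gen (cof k F) F →
      IsChowForm (surf F) ((Γ' i).at p.1.rep) (chs (Γ' i) p.1) := fun i p hp =>
    chs_spec _ _ ((hT' i).1 p.1 hp)
  -- the statement for one family of endomorphisms
  have key : ∀ φ : Fin n → AddMonoid.End (CH0 (surf F)),
      (∀ i, ∀ p : surf F, p.1 ∈ Gen (cof k F) F → φ i (mkC F (FreeAbelianGroup.of p)) =
        mkC F (phH (Γ i) (Γ' i) (a i) (b i) (FreeAbelianGroup.of p))) →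
      ∀ word : Fin N → Fin n, ∃ M : ℕ, 0 < M ∧ ∀ p q : surf F, p.1 ∈ Gen (cof k F) F →
        q.1 ∈ Gen (cof k F) F → M • ((List.ofFn word).map φ).prod
          (mkC F (FreeAbelianGroup.of p - FreeAbelianGroup.of q)) = 0 := by
    intro φ hφ word
    refine exists_MH hd hsm (cof k F) hFK φ hFK' ?_ (List.ofFn word) ?_
    · intro σ hσ i c
      have hσ' : σ ∈ Fix (adj (cof k F) S) := Fix_mono hK'c hσ
      refine DFunLike.congr_fun (hom_ext_gen hd hsm (cof k F) hFK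
        ((φ i : CH0 (surf F) →+ CH0 (surf F)).comp (actH hsm.hom hFK' hσ))
        ((actH hsm.hom hFK' hσ).comp (φ i : CH0 (surf F) →+ CH0 (surf F))) fun p hp => ?_) c
      change φ i (actH hsm.hom hFK' hσ (mkC F (FreeAbelianGroup.of p))) =
        actH hsm.hom hFK' hσ (φ i (mkC F (FreeAbelianGroup.of p)))
      have hp' : (actS hsm.hom hFK' hσ p).1 ∈ Gen (cof k F) F :=
        (act_mem_Gen hsm.hom hFK (Fix_mono (le_clo _) hσ)).2 hp
      rw [hφ i p hp, actH_mkC, actH_mkC, actZ_of, hφ i _ hp']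
      congr 1
      apply jz_injective
      rw [jz_actZ, jz_phH_of, jz_phH_of]
      change b i • (effT (Γ i) (act σ p.1) - effT (Γ' i) (act σ p.1)) -
        a i • (Finsupp.single (act σ p.1) (1 : ℚ) : Cy) = _
      rw [(hT i).2.2 σ hσ' p.1 hp, (hT' i).2.2 σ hσ' p.1 hp, map_sub, map_zsmul, map_zsmul,
        map_sub, actC_single]
    · intro p q hp hq
      have h1 := hN (fun j => qEnd (φ (word j))) (fun j => by
        refine ⟨fun p => b (word j) • (effT (Γ (word j)) p - effT (Γ' (word j)) p) -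
          a (word j) • (Finsupp.single p (1 : ℚ) : Cy), fun p hp => ?_, fun σ hσ p hp => ?_,
          fun p hp => ?_⟩
        · refine mem_TZ.2 ⟨support_zsmul_sub ((hT (word j)).2.1 p hp) ((hT' (word j)).2.1 p hp)
            (fun q hq => ?_) _ _, fun D₁ D₂ h1 h2 f hf => ?_⟩
          · rw [Finset.mem_singleton.1 (Finsupp.support_single_subset hq)]
            exact hp.1
          · rw [map_sub, map_zsmul, map_zsmul, htau (word j) p hp D₁ D₂ h1 h2 f hf]
            unfold tauC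
            rw [Finsupp.linearCombination_single, one_smul, zsmul_eq_mul, zsmul_eq_mul,
              ← mul_assoc, hbm, sub_self]
        · change b (word j) • (effT (Γ (word j)) (act σ p) - effT (Γ' (word j)) (act σ p)) -
            a (word j) • (Finsupp.single (act σ p) (1 : ℚ) : Cy) = actC σ _
          rw [(hT (word j)).2.2 σ hσ p hp, (hT' (word j)).2.2 σ hσ p hp, map_sub, map_zsmul,
            map_zsmul, map_sub, actC_single]
        · have h3 := qEnd_single (φ (word j)) (⟨p, hp.1⟩ : surf F)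
          rw [hφ (word j) ⟨p, hp.1⟩ hp, iota_phH] at h3
          exact h3) p.1 p.2 q.1 q.2
      rw [← qEnd_prod, iota_mkC, map_sub, map_sub, jz_of, jz_of]
      have e1 : (List.ofFn fun j => qEnd (φ (word j))) =
          (List.ofFn word).map fun i => qEnd (φ i) := by
        rw [List.map_ofFn]
        rfl
      rw [e1] at h1
      exact h1
  -- all families of endomorphisms are the same
  have hex : ∃ Mw : (Fin N → Fin n) → ℕ, (∀ word, 0 < Mw word) ∧
      ∀ φ : Fin n → AddMonoid.End (CH0 (surf F)),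
        (∀ i, ∀ p : surf F, p.1 ∈ Gen (cof k F) F → φ i (mkC F (FreeAbelianGroup.of p)) =
          mkC F (phH (Γ i) (Γ' i) (a i) (b i) (FreeAbelianGroup.of p))) →
        ∀ word : Fin N → Fin n, ∀ p q : surf F, p.1 ∈ Gen (cof k F) F →
          q.1 ∈ Gen (cof k F) F → Mw word • ((List.ofFn word).map φ).prod
            (mkC F (FreeAbelianGroup.of p - FreeAbelianGroup.of q)) = 0 := by
    by_cases hφ0 : ∃ φ : Fin n → AddMonoid.End (CH0 (surf F)),
        ∀ i, ∀ p : surf F, p.1 ∈ Gen (cof k F) F → φ i (mkC F (FreeAbelianGroup.of p)) =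
          mkC F (phH (Γ i) (Γ' i) (a i) (b i) (FreeAbelianGroup.of p))
    · obtain ⟨φ0, hφ0⟩ := hφ0
      choose Mw hMw0 hMw1 using key φ0 hφ0
      refine ⟨Mw, hMw0, fun φ hφ => ?_⟩
      have h1 : φ = φ0 := funext fun i => hom_ext_gen hd hsm (cof k F) hFK
        (φ i : CH0 (surf F) →+ CH0 (surf F)) (φ0 i) fun p hp => by
          exact (hφ i p hp).trans (hφ0 i p hp).symm
      rw [h1]
      exact hMw1
    · exact ⟨fun _ => 1, fun _ => one_pos, fun φ hφ => absurd ⟨φ, hφ⟩ hφ0⟩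
  obtain ⟨Mw, hMw0, hMw1⟩ := hex
  refine ⟨cof k F, hKc, hFK, a, b, N, ∏ word, Mw word, D, hDG, fun i => ⟨hbpos i, hbm i⟩,
    Finset.prod_pos fun word _ => hMw0 word, hD, ?_, ?_⟩
  · intro i p hp
    have hp' := (hDG p).1 hp
    exact ⟨chs (Γ i) p.1, chs (Γ' i) p.1, hchs i p hp', hchs' i p hp'⟩
  · intro φ hφ word p hp q hq
    have hp' := (hDG p).1 hp
    have hq' := (hDG q).1 hq
    have e1 : (List.ofFn fun j => φ (word j)) = (List.ofFn word).map φ := by
      rw [List.map_ofFn]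
      rfl
    rw [e1]
    obtain ⟨c, hc⟩ : Mw word ∣ ∏ word, Mw word := Finset.dvd_prod_of_mem _ (Finset.mem_univ word)
    rw [hc, mul_comm, mul_smul, hMw1 φ (fun i x hx => (hφ i).phH ((hDG x).2 hx) (hchs i x hx)
      (hchs' i x hx)) word p q hp' hq', smul_zero]

/-- The main theorem: very general surfaces in `ℙ³`, arbitrary correspondences, and their action on
the Chow group. -/
theorem main2 (F : MvPolynomial (Fin 4) ℂ) (d : ℕ) (hd : 4 ≤ d) (hF : F.IsHomogeneous d)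
    (hind : AlgebraicIndependent ℚ
      (fun m : {m : Fin 4 →₀ ℕ // m.degree = d} => coeff m.1 F))
    (Ω : Type) [Field Ω] [Algebra ℂ Ω] [IsAlgClosed Ω] (ξ : Fin 4 → Ω)
    (hξ : IsGenericPoint F ξ) (n : ℕ) (w w' : Fin n → ℕ) (Γ : ∀ i, EffCorr F ξ (w i))
    (Γ' : ∀ i, EffCorr F ξ (w' i)) (m : Fin n → ℂ)
    (hm : ∀ i, ActsByScalar F (d - 4) (Γ i) (Γ' i) (m i)) :
    ∃ (a b : Fin n → ℤ) (N M : ℕ) (D : ℕ → MvPolynomial (Fin 4) ℂ),
      (∀ i, 0 < b i ∧ b i * m i = a i) ∧ 0 < M ∧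
      (∀ j, (∃ e, (D j).IsHomogeneous e) ∧ ¬ F ∣ D j) ∧
      (∀ i, ∀ p ∈ veryGen F D, ∃ s s' : Multiset (surf F),
        IsChowForm (surf F) ((Γ i).at p.1.rep) s ∧ IsChowForm (surf F) ((Γ' i).at p.1.rep) s') ∧
      ∀ φ : Fin n → AddMonoid.End (CH0 (surf F)),
        (∀ i, ActsOnCH (Γ i) (Γ' i) (veryGen F D) (a i) (b i) (φ i)) →
        ∀ word : Fin N → Fin n, ∀ z : Z0 (surf F), Pool.Agent.Chow0.deg z = 0 →
          M • (List.ofFn fun j => φ (word j)).prod (QuotientAddGroup.mk z) = 0 := by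
  have hsm : IsSmoothForm F d := smooth_of_algInd (by omega) hF hind
  obtain ⟨K, hK, hKF, a, b, N, M, D, hDG, hab, hM, hD, hch, hφ⟩ :=
    main2' F d hd hF hind Ω ξ hξ n w w' Γ Γ' m hm
  refine ⟨a, b, N, M, D, hab, hM, hD, hch, fun φ hφ' word z hz => ?_⟩
  obtain ⟨y, hy, hzy⟩ := move_deg (V := veryGen F D) (fun x => by
    obtain ⟨s, t, hs, ht, h⟩ := exists_move hd hsm K hKF x
    exact ⟨s, t, fun p hp => (hDG p).2 (hs p hp), fun p hp => (hDG p).2 (ht p hp), h⟩) hz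
  have e1 : (QuotientAddGroup.mk z : CH0 (surf F)) = mkC F y := by
    have h1 := mkC_eq_zero.2 hzy
    rw [map_sub] at h1
    exact sub_eq_zero.1 h1
  rw [e1]
  refine AddSubgroup.closure_induction (p := fun y _ =>
    M • (List.ofFn fun j => φ (word j)).prod (mkC F y) = 0) ?_ ?_ ?_ ?_ hy
  · rintro y ⟨p, hp, q, hq, rfl⟩
    exact hφ φ hφ' word p hp q hq
  · rw [map_zero, map_zero, smul_zero]
  · intro x y _ _ hx hy
    rw [map_add, map_add, smul_add, hx, hy, add_zero]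
  · intro x _ hx
    rw [map_neg, map_neg, smul_neg, hx, neg_zero]

end Pool.Agent.VGS
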