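import Mathlib

/-! Module Exact2: an endomorphism which acts on a stable subgroup as a rational number plus a
nilpotent endomorphism, and which satisfies there a polynomial equation without multiple factors,
acts there as this rational number, up to torsion. -/

set_option autoImplicit false

open Polynomial

namespace Pool.Agent.VGS2

namespace Exact2Aux

/-- clearing denominators -/
theorem clear_den (f : ℚ[X]) : ∃ c : ℤ, c ≠ 0 ∧ ∃ U : ℤ[X],
    U.map (Int.castRingHom ℚ) = C (c : ℚ) * f := by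
  obtain ⟨b, hb, h⟩ := IsLocalization.integerNormalization_spec (nonZeroDivisors ℤ) f
  refine ⟨b, nonZeroDivisors.ne_zero hb,
    IsLocalization.integerNormalization (nonZeroDivisors ℤ) f, ?_⟩
  rw [show (Int.castRingHom ℚ) = algebraMap ℤ ℚ from rfl, h]
  rw [← Polynomial.smul_eq_C_mul]
  ext n
  simp

theorem bezout {P : ℤ[X]} (hP : Squarefree (P.map (Int.castRingHom ℚ))) (L : ℤ[X]) (N : ℕ) :
    ∃ c : ℤ, c ≠ 0 ∧ ∃ U W : ℤ[X], C c * L = U * P + W * L ^ N := by
  classical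
  set Lq := L.map (Int.castRingHom ℚ) with hLq
  set Pq := P.map (Int.castRingHom ℚ) with hPq
  obtain ⟨x, y, hxy⟩ : ∃ x y : ℚ[X], Lq = x * Pq + y * Lq ^ N := by
    rcases Nat.eq_zero_or_pos N with rfl | hN
    · exact ⟨0, Lq, by simp⟩
    · set g := EuclideanDomain.gcd Pq (Lq ^ N) with hg
      have hg1 : g ∣ Pq := EuclideanDomain.gcd_dvd_left _ _
      have hg2 : g ∣ Lq ^ N := EuclideanDomain.gcd_dvd_right _ _
      have hgs : Squarefree g := hP.squarefree_of_dvd hg1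
      obtain ⟨h, hh⟩ := (hgs.dvd_pow_iff_dvd hN.ne').1 hg2
      have e := EuclideanDomain.gcd_eq_gcd_ab Pq (Lq ^ N)
      refine ⟨h * EuclideanDomain.gcdA Pq (Lq ^ N), h * EuclideanDomain.gcdB Pq (Lq ^ N), ?_⟩
      conv_lhs => rw [hh]
      rw [hg, e]
      ring
  obtain ⟨c₁, hc₁, U, hU⟩ := clear_den x
  obtain ⟨c₂, hc₂, W, hW⟩ := clear_den y
  refine ⟨c₁ * c₂, mul_ne_zero hc₁ hc₂, C c₂ * U, C c₁ * W, ?_⟩
  have hinj : Function.Injective (Polynomial.map (Int.castRingHom ℚ)) :=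
    Polynomial.map_injective _ (RingHom.injective_int _)
  apply hinj
  simp only [Polynomial.map_mul, Polynomial.map_add, Polynomial.map_pow, Polynomial.map_C, hU, hW,
    ← hLq, ← hPq]
  conv_lhs => rw [hxy]
  simp only [eq_intCast, Int.cast_mul, C_mul]
  ring

variable {A : Type*} [AddCommGroup A]

theorem aeval_mem {A₀ : AddSubgroup A} {Φ : AddMonoid.End A} (hΦ : ∀ x ∈ A₀, Φ x ∈ A₀)
    (P : ℤ[X]) {x : A} (hx : x ∈ A₀) : aeval Φ P x ∈ A₀ := by
  have hpow : ∀ (n : ℕ) (x : A), x ∈ A₀ → (Φ ^ n) x ∈ A₀ := by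
    intro n
    induction n with
    | zero => intro x hx; simpa using hx
    | succ n ih =>
      intro x hx
      rw [pow_succ]
      exact ih _ (hΦ x hx)
  induction P using Polynomial.induction_on' with
  | add p q hp hq =>
    rw [map_add]
    exact AddSubgroup.add_mem _ hp hq
  | monomial n a =>
    rw [aeval_monomial]
    have h1 : ((algebraMap ℤ (AddMonoid.End A)) a * Φ ^ n) x = a • (Φ ^ n) x := by
      rw [← Algebra.smul_def]
      rfl
    rw [h1]
    exact AddSubgroup.zsmul_mem _ (hpow n x hx) a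

theorem zsmul_to_nsmul {c : ℤ} {M : ℕ} {z : A} (h : M • c • z = 0) : (M * c.natAbs) • z = 0 := by
  rcases Int.natAbs_eq c with hc1 | hc1
  · rw [mul_smul]
    rw [hc1, natCast_zsmul] at h
    exact h
  · rw [mul_smul]
    rw [hc1, neg_smul, natCast_zsmul, smul_neg, neg_eq_zero] at h
    exact h

end Exact2Aux

open Exact2Aux

section

variable {A : Type*} [AddCommGroup A]

/-- A more general form: if `L(Φ)` is nilpotent up to torsion on the stable subgroup `A₀`, and
`P(Φ)` is torsion on `A₀` for a polynomial `P` without multiple factors, then `L(Φ)` is torsion on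
`A₀`. -/
theorem exact_poly (A₀ : AddSubgroup A) (Φ : AddMonoid.End A) (hst : ∀ x ∈ A₀, Φ x ∈ A₀)
    (P : ℤ[X]) (hP : Squarefree (P.map (Int.castRingHom ℚ))) (M₁ : ℕ) (hM₁ : 0 < M₁)
    (hPΦ : ∀ x ∈ A₀, M₁ • aeval Φ P x = 0) (L : ℤ[X]) (N M : ℕ) (hM : 0 < M)
    (hN : ∀ x ∈ A₀, M • ((aeval Φ L : AddMonoid.End A) ^ N) x = 0) :
    ∃ M' : ℕ, 0 < M' ∧ ∀ x ∈ A₀, M' • aeval Φ L x = 0 := by
  obtain ⟨c, hc, U, W, hUW⟩ := bezout hP L N
  refine ⟨M₁ * M * c.natAbs, Nat.mul_pos (Nat.mul_pos hM₁ hM) (Int.natAbs_pos.2 hc),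
    fun x hx => zsmul_to_nsmul ?_⟩
  have e : C c * L = P * U + L ^ N * W := by
    rw [hUW]
    ring
  have e1 : c • aeval Φ L x = aeval Φ P (aeval Φ U x) +
      ((aeval Φ L : AddMonoid.End A) ^ N) (aeval Φ W x) := by
    have h1 := congrArg (fun Q : ℤ[X] => aeval Φ Q x) e
    simp only [map_add, map_mul, map_pow, aeval_C] at h1
    have h2 : ((algebraMap ℤ (AddMonoid.End A) c) * (aeval Φ L)) x = c • aeval Φ L x := by
      rw [← Algebra.smul_def]
      rfl
    rw [h2] at h1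
    rw [h1]
    rfl
  rw [e1, smul_add, mul_smul, mul_smul]
  have h3 : M • (((aeval Φ L : AddMonoid.End A) ^ N) (aeval Φ W x)) = 0 :=
    hN _ (aeval_mem hst W hx)
  have h4 : M₁ • aeval Φ P (aeval Φ U x) = 0 := hPΦ _ (aeval_mem hst U hx)
  rw [h3, smul_zero, add_zero, smul_comm, h4, smul_zero]

/-- An endomorphism which acts on the stable subgroup `A₀` as the rational number `a / b` plus a
nilpotent endomorphism, up to torsion, and which satisfies on `A₀` a polynomial equation without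
multiple factors, acts on `A₀` as `a / b`, up to torsion. -/
theorem exact_of_squarefree (A₀ : AddSubgroup A) (Φ : AddMonoid.End A)
    (hst : ∀ x ∈ A₀, Φ x ∈ A₀) (P : ℤ[X]) (hP : Squarefree (P.map (Int.castRingHom ℚ)))
    (hPΦ : ∀ x ∈ A₀, aeval Φ P x = 0) (a b : ℤ) (N M : ℕ) (hM : 0 < M)
    (hN : ∀ x ∈ A₀, M • ((b • Φ - a • (1 : AddMonoid.End A)) ^ N) x = 0) :
    ∃ M' : ℕ, 0 < M' ∧ ∀ x ∈ A₀, M' • (b • Φ x - a • x) = 0 := by
  have hL : (aeval Φ (C b * X - C a : ℤ[X]) : AddMonoid.End A) =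
      b • Φ - a • (1 : AddMonoid.End A) := by
    rw [map_sub, map_mul, aeval_C, aeval_C, aeval_X, ← Algebra.smul_def,
      Algebra.algebraMap_eq_smul_one]
  obtain ⟨M', hM', h⟩ := exact_poly A₀ Φ hst P hP 1 one_pos
    (fun x hx => by rw [one_smul]; exact hPΦ x hx) (C b * X - C a) N M hM (by rw [hL]; exact hN)
  refine ⟨M', hM', fun x hx => ?_⟩
  have h1 := h x hx
  rw [hL] at h1
  exact h1

/-- The form for words of length `N` in one letter. -/
theorem exact_of_words (A₀ : AddSubgroup A) (Φ : AddMonoid.End A)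
    (hst : ∀ x ∈ A₀, Φ x ∈ A₀) (P : ℤ[X]) (hP : Squarefree (P.map (Int.castRingHom ℚ)))
    (hPΦ : ∀ x ∈ A₀, aeval Φ P x = 0) (a b : ℤ) (N M : ℕ) (hM : 0 < M)
    (hN : ∀ x ∈ A₀, M • (List.ofFn fun _ : Fin N => b • Φ - a • (1 : AddMonoid.End A)).prod x = 0) :
    ∃ M' : ℕ, 0 < M' ∧ ∀ x ∈ A₀, M' • (b • Φ x - a • x) = 0 := by
  refine exact_of_squarefree A₀ Φ hst P hP hPΦ a b N M hM fun x hx => ?_
  have h1 := hN x hx
  rw [List.ofFn_const, List.prod_replicate] at h1
  exact h1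

end

end Pool.Agent.VGS2
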