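import Pool.Agent.VGS.Fin
import Pool.Agent.VGS.Move

/-! Module Fin2A: endomorphisms of the Chow group, the Chow group with rational coefficients,
uniform multiples. -/

set_option autoImplicit false

open scoped LinearAlgebra.Projectivization
open MvPolynomial

namespace Pool.Agent.VGS

open Pool.Agent.Chow0 (IsChowForm IsLink cyc Z0 ratTriv deg CH0)
open Pool.Agent.LowDeg (surf IsSmoothForm)

variable {F : MvPolynomial (Fin 4) ℂ} {d : ℕ}

/-! ### the Chow group with rational coefficients -/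

/-- The class of a cycle. -/
noncomputable def mkC (F : MvPolynomial (Fin 4) ℂ) : Z0 (surf F) →+ CH0 (surf F) :=
  QuotientAddGroup.mk' (ratTriv (surf F))

theorem mkC_eq_zero {z : Z0 (surf F)} : mkC F z = 0 ↔ z ∈ ratTriv (surf F) :=
  QuotientAddGroup.eq_zero_iff z

theorem mkC_surjective : Function.Surjective (mkC F) := QuotientAddGroup.mk'_surjective _

theorem jz_ratTriv {z : Z0 (surf F)} (hz : z ∈ ratTriv (surf F)) : jz F z ∈ ratQ F := by
  unfold ratTriv at hz
  induction hz using AddSubgroup.closure_induction with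
  | mem z hz =>
    obtain ⟨s₀, s₁, h, rfl⟩ := hz
    rw [map_sub, jz_cyc, jz_cyc]
    exact Submodule.subset_span ⟨s₀, s₁, h, rfl⟩
  | zero => rw [map_zero]; exact Submodule.zero_mem _
  | add x y _ _ hx hy => rw [map_add]; exact Submodule.add_mem _ hx hy
  | neg x _ hx => rw [map_neg]; exact Submodule.neg_mem _ hx

/-- The map to the Chow group with rational coefficients. -/
noncomputable def iota (F : MvPolynomial (Fin 4) ℂ) : CH0 (surf F) →+ Cy ⧸ ratQ F :=
  QuotientAddGroup.lift (ratTriv (surf F)) (((ratQ F).mkQ : Cy →+ Cy ⧸ ratQ F).comp (jz F))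
    fun _ hz => (Submodule.Quotient.mk_eq_zero _).2 (jz_ratTriv hz)

theorem iota_mkC (z : Z0 (surf F)) : iota F (mkC F z) = (ratQ F).mkQ (jz F z) := rfl

theorem iota_eq_zero {c : CH0 (surf F)} (h : iota F c = 0) : ∃ M : ℕ, 0 < M ∧ M • c = 0 := by
  obtain ⟨z, rfl⟩ := mkC_surjective c
  rw [iota_mkC, Submodule.mkQ_apply, Submodule.Quotient.mk_eq_zero] at h
  obtain ⟨M, hM, hM'⟩ := exists_mul_mem z h
  exact ⟨M, hM, by rw [← map_nsmul, mkC_eq_zero]; exact hM'⟩

open Classical in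
/-- The values of the endomorphism `φ` on points. -/
noncomputable def ptv (φ : AddMonoid.End (CH0 (surf F))) (p : PP) : Cy ⧸ ratQ F :=
  if h : p ∈ surf F then iota F (φ (mkC F (FreeAbelianGroup.of (⟨p, h⟩ : surf F)))) else 0

theorem lc_jz (φ : AddMonoid.End (CH0 (surf F))) (z : Z0 (surf F)) :
    Finsupp.linearCombination ℚ (ptv φ) (jz F z) = iota F (φ (mkC F z)) := by
  have h : ((Finsupp.linearCombination ℚ (ptv φ) : Cy →ₗ[ℚ] Cy ⧸ ratQ F) :
      Cy →+ Cy ⧸ ratQ F).comp (jz F) =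
      (iota F).comp ((φ : CH0 (surf F) →+ CH0 (surf F)).comp (mkC F)) := by
    refine FreeAbelianGroup.lift_ext _ _ fun q => ?_
    change Finsupp.linearCombination ℚ (ptv φ) (jz F (FreeAbelianGroup.of q)) =
      iota F (φ (mkC F (FreeAbelianGroup.of q)))
    rw [jz_of, Finsupp.linearCombination_single, one_smul]
    unfold ptv
    rw [dif_pos q.2]
  exact DFunLike.congr_fun h z

/-- The endomorphism of the Chow group with rational coefficients. -/
noncomputable def qEnd (φ : AddMonoid.End (CH0 (surf F))) : Module.End ℚ (Cy ⧸ ratQ F) :=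
  (ratQ F).liftQ (Finsupp.linearCombination ℚ (ptv φ)) (by
    unfold ratQ
    rw [Submodule.span_le]
    rintro _ ⟨s₀, s₁, h, rfl⟩
    change Finsupp.linearCombination ℚ (ptv φ) _ = 0
    rw [← jz_cyc, ← jz_cyc, ← map_sub, lc_jz,
      mkC_eq_zero.2 (AddSubgroup.subset_closure ⟨s₀, s₁, h, rfl⟩), map_zero, map_zero])

theorem qEnd_mk (φ : AddMonoid.End (CH0 (surf F))) (y : Cy) :
    qEnd φ ((ratQ F).mkQ y) = Finsupp.linearCombination ℚ (ptv φ) y :=
  (ratQ F).liftQ_apply _ _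

theorem qEnd_iota (φ : AddMonoid.End (CH0 (surf F))) (c : CH0 (surf F)) :
    qEnd φ (iota F c) = iota F (φ c) := by
  obtain ⟨z, rfl⟩ := mkC_surjective c
  rw [iota_mkC, qEnd_mk, lc_jz]

theorem qEnd_single (φ : AddMonoid.End (CH0 (surf F))) (p : surf F) :
    qEnd φ ((ratQ F).mkQ (Finsupp.single p.1 1)) =
      iota F (φ (mkC F (FreeAbelianGroup.of p))) := by
  rw [← jz_of, ← iota_mkC, qEnd_iota]

theorem qEnd_prod {n : ℕ} (φ : Fin n → AddMonoid.End (CH0 (surf F))) (l : List (Fin n))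
    (c : CH0 (surf F)) :
    (l.map fun i => qEnd (φ i)).prod (iota F c) = iota F ((l.map φ).prod c) := by
  induction l with
  | nil => rfl
  | cons i l ih =>
    rw [List.map_cons, List.map_cons, List.prod_cons, List.prod_cons]
    change qEnd (φ i) ((l.map fun i => qEnd (φ i)).prod (iota F c)) = iota F (φ i _)
    rw [ih, qEnd_iota]
    rfl

/-! ### automorphisms -/

/-- The action of an automorphism on the Chow group. -/
noncomputable def actH {L : Fl} (hF : F.IsHomogeneous d) (hL : Coef L F) {σ : ℂ ≃+* ℂ}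
    (hσ : σ ∈ Fix L) : CH0 (surf F) →+ CH0 (surf F) :=
  QuotientAddGroup.map _ _ (actZ hF hL hσ) fun _ hz => actZ_ratTriv hF hL hσ hz

theorem actH_mkC {L : Fl} (hF : F.IsHomogeneous d) (hL : Coef L F) {σ : ℂ ≃+* ℂ}
    (hσ : σ ∈ Fix L) (z : Z0 (surf F)) :
    actH hF hL hσ (mkC F z) = mkC F (actZ hF hL hσ z) := rfl

theorem prodH_comm {n : ℕ} (φ : Fin n → AddMonoid.End (CH0 (surf F)))
    (τ : CH0 (surf F) →+ CH0 (surf F)) (hτ : ∀ i c, φ i (τ c) = τ (φ i c))
    (l : List (Fin n)) (c : CH0 (surf F)) : (l.map φ).prod (τ c) = τ ((l.map φ).prod c) := by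
  induction l with
  | nil => rfl
  | cons i l ih =>
    rw [List.map_cons, List.prod_cons]
    change φ i ((l.map φ).prod (τ c)) = τ (φ i ((l.map φ).prod c))
    rw [ih, hτ i]

/-- two homomorphisms which agree at the generic points agree -/
theorem hom_ext_gen (hd : 4 ≤ d) (hF : IsSmoothForm F d) (K : Fl) [Countable K] (hFK : Coef K F)
    {A : Type} [AddCommGroup A] (f g : CH0 (surf F) →+ A)
    (h : ∀ p : surf F, p.1 ∈ Gen K F →
      f (mkC F (FreeAbelianGroup.of p)) = g (mkC F (FreeAbelianGroup.of p))) : f = g := by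
  have hcyc : ∀ s : Multiset (surf F), (∀ p ∈ s, p.1 ∈ Gen K F) →
      f (mkC F (cyc s)) = g (mkC F (cyc s)) := by
    intro s
    induction s using Multiset.induction_on with
    | empty =>
      intro _
      have h0 : cyc (0 : Multiset (surf F)) = 0 := rfl
      rw [h0, map_zero, map_zero, map_zero]
    | cons a s ih =>
      intro hs
      have h0 : cyc (a ::ₘ s) = FreeAbelianGroup.of a + cyc s := by
        unfold cyc
        rw [Multiset.map_cons, Multiset.sum_cons]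
      rw [h0, map_add, map_add, map_add, h a (hs a (Multiset.mem_cons_self a s)),
        ih fun p hp => hs p (Multiset.mem_cons_of_mem hp)]
  have hpt : ∀ x : surf F,
      f (mkC F (FreeAbelianGroup.of x)) = g (mkC F (FreeAbelianGroup.of x)) := by
    intro x
    obtain ⟨s, t, hs, ht, h1⟩ := exists_move hd hF K hFK x
    have h2 : mkC F (FreeAbelianGroup.of x) = mkC F (cyc t) - mkC F (cyc s) := by
      have h3 := mkC_eq_zero.2 h1
      rw [map_sub, map_add] at h3
      rw [eq_sub_iff_add_eq]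
      exact sub_eq_zero.1 h3
    rw [h2, map_sub, map_sub, hcyc s hs, hcyc t ht]
  have h3 : f.comp (mkC F) = g.comp (mkC F) := FreeAbelianGroup.lift_ext _ _ hpt
  refine DFunLike.ext _ _ fun c => ?_
  obtain ⟨z, rfl⟩ := mkC_surjective c
  exact DFunLike.congr_fun h3 z

/-! ### uniformity of the multiple -/

theorem exists_MH {F : MvPolynomial (Fin 4) ℂ} {d : ℕ} (hd : 4 ≤ d) (hF : IsSmoothForm F d)
    (K : Fl) [Countable K] (hFK : Coef K F) {n : ℕ} (φ : Fin n → AddMonoid.End (CH0 (surf F)))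
    (hFK' : Coef (clo K) F)
    (hτ : ∀ (σ : ℂ ≃+* ℂ) (hσ : σ ∈ Fix (clo K)) (i : Fin n) (c : CH0 (surf F)),
      φ i (actH hF.hom hFK' hσ c) = actH hF.hom hFK' hσ (φ i c))
    (l : List (Fin n))
    (hrat : ∀ p q : surf F, p.1 ∈ Gen K F → q.1 ∈ Gen K F →
      iota F ((l.map φ).prod (mkC F (FreeAbelianGroup.of p - FreeAbelianGroup.of q))) = 0) :
    ∃ M : ℕ, 0 < M ∧ ∀ p q : surf F, p.1 ∈ Gen K F → q.1 ∈ Gen K F →
      M • (l.map φ).prod (mkC F (FreeAbelianGroup.of p - FreeAbelianGroup.of q)) = 0 := by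
  have hcoefP : ∀ p : PP, Coef (clo (adjP K p)) F := fun p =>
    hFK.mono ((le_adjP K p).trans (le_clo _))
  obtain ⟨p0, hp0⟩ := exists_gen hd hF K hFK
  obtain ⟨r0, hr0⟩ := exists_gen hd hF (clo (adjP K p0)) (hcoefP p0)
  have hsub : ∀ p : PP, Gen (clo (adjP K p)) F ⊆ Gen K F := fun p =>
    Gen_anti ((le_adjP K p).trans (le_clo _)) F
  obtain ⟨M, hM, hM0⟩ := iota_eq_zero
    (hrat ⟨p0, hp0.1⟩ ⟨r0, hr0.1⟩ hp0 (hsub p0 hr0))
  refine ⟨M, hM, ?_⟩
  -- the automorphisms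
  have claim1 : ∀ σ : ℂ ≃+* ℂ, σ ∈ Fix (clo K) → ∀ p q p' q' : surf F,
      act σ p.1 = p'.1 → act σ q.1 = q'.1 →
      M • (l.map φ).prod (mkC F (FreeAbelianGroup.of p - FreeAbelianGroup.of q)) = 0 →
      M • (l.map φ).prod (mkC F (FreeAbelianGroup.of p' - FreeAbelianGroup.of q')) = 0 := by
    intro σ hσ p q p' q' hpp hqq h
    have e1 : FreeAbelianGroup.of p' - FreeAbelianGroup.of q' =
        actZ hF.hom hFK' hσ (FreeAbelianGroup.of p - FreeAbelianGroup.of q) := by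
      rw [map_sub, actZ_of, actZ_of]
      congr 2
      · exact Subtype.ext hpp.symm
      · exact Subtype.ext hqq.symm
    rw [e1, ← actH_mkC, prodH_comm φ (actH hF.hom hFK' hσ) (fun i c => hτ σ hσ i c) l,
      ← map_nsmul, h, map_zero]
  have hfixK : ∀ p : PP, Fix (clo (adjP K p)) ≤ Fix (clo K) := fun p =>
    Fix_mono (clo_mono (le_adjP K p))
  have hfixp : ∀ p : PP, ∀ σ ∈ Fix (clo (adjP K p)), act σ p = p := fun p σ hσ =>
    ((over_adjP K p).mono (le_clo _)).act_eq hσ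
  have claim2 : ∀ p r : surf F, p.1 ∈ Gen K F → r.1 ∈ Gen (clo (adjP K p.1)) F →
      M • (l.map φ).prod (mkC F (FreeAbelianGroup.of p - FreeAbelianGroup.of r)) = 0 := by
    intro p r hp hr
    obtain ⟨r1, hr1⟩ := exists_gen hd hF (clo (adjP (adjP K p0) p.1))
      (hFK.mono ((le_adjP K p0).trans ((le_adjP _ _).trans (le_clo _))))
    have h10 : r1 ∈ Gen (clo (adjP K p0)) F := Gen_anti (clo_mono (le_adjP _ _)) F hr1
    have h1p : r1 ∈ Gen (clo (adjP K p.1)) F :=
      Gen_anti (clo_mono (adjP_mono (le_adjP K p0) p.1)) F hr1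
    -- step a
    obtain ⟨σ, hσ, hσr⟩ := gen_conj hd hF (clo (adjP K p0)) (hcoefP p0) hr0 h10
    have ha := claim1 σ (hfixK p0 hσ) ⟨p0, hp0.1⟩ ⟨r0, hr0.1⟩ ⟨p0, hp0.1⟩ ⟨r1, hr1.1⟩
      (hfixp p0 σ hσ) hσr hM0
    -- step b
    have hb0 := gen_symm hd hF K hFK hp0 h10
    have hbp := gen_symm hd hF K hFK hp h1p
    obtain ⟨σ, hσ, hσp⟩ := gen_conj hd hF (clo (adjP K r1)) (hcoefP r1) hb0 hbp
    have hb := claim1 σ (hfixK r1 hσ) ⟨p0, hp0.1⟩ ⟨r1, hr1.1⟩ p ⟨r1, hr1.1⟩
      hσp (hfixp r1 σ hσ) ha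
    -- step c
    obtain ⟨σ, hσ, hσr⟩ := gen_conj hd hF (clo (adjP K p.1)) (hcoefP p.1) h1p hr
    exact claim1 σ (hfixK p.1 hσ) p ⟨r1, hr1.1⟩ p r (hfixp p.1 σ hσ) hσr hb
  intro p q hp hq
  obtain ⟨r, hr⟩ := exists_gen hd hF (clo (adjP (adjP K p.1) q.1))
    (hFK.mono ((le_adjP K p.1).trans ((le_adjP _ _).trans (le_clo _))))
  have hrp : r ∈ Gen (clo (adjP K p.1)) F :=
    Gen_anti (clo_mono (le_adjP _ _)) F hr
  have hrq : r ∈ Gen (clo (adjP K q.1)) F :=
    Gen_anti (clo_mono (adjP_mono (le_adjP K p.1) q.1)) F hr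
  have h1 := claim2 p ⟨r, hr.1⟩ hp hrp
  have h2 := claim2 q ⟨r, hr.1⟩ hq hrq
  have e : (FreeAbelianGroup.of p - FreeAbelianGroup.of q : Z0 (surf F)) =
      (FreeAbelianGroup.of p - FreeAbelianGroup.of (⟨r, hr.1⟩ : surf F)) -
        (FreeAbelianGroup.of q - FreeAbelianGroup.of (⟨r, hr.1⟩ : surf F)) := by abel
  rw [e, map_sub, map_sub, smul_sub, h1, h2, sub_zero]

end Pool.Agent.VGS
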