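import Pool.Agent.VGS.SProp

/-! Module S1: invariant cycles with arbitrary support (sections 1.3 - 1.8 with `T = 1`). -/

set_option autoImplicit false

open scoped LinearAlgebra.Projectivization
open MvPolynomial

namespace Pool.Agent.VGS

open Pool.Agent.LowDeg (surf IsSmoothForm)

variable {F : MvPolynomial (Fin 4) ℂ} {d : ℕ}

/-- One step (`j = 0` or `1`) for arbitrary points of the surface. -/
theorem asm_step1 (hd : 4 ≤ d) (hF : IsSmoothForm F d) (k : Fl) [Countable k]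
    {p : PP} {M : Matrix (Fin 4) (Fin 4) ℂ} (hM : IsFrame k F d p M)
    (j : Fin 4) (hj : (j : ℕ) ≤ 1) {z : Fin 4 → ℂ} (hz0 : ∀ i < j, z i = 0) (hzj : z j = 1)
    (hzF : mkP (M.mulVec z) ∈ surf F) (hzE : Over (clo (frE k F M)) (mkP (M.mulVec z))) :
    ∃ (e : ℕ) (y : Cy), 0 < e ∧ (∀ σ ∈ Fix (frE k F M), actC σ y = y) ∧
      (∀ q ∈ y.support, q ∈ surf F ∧ Over (clo (frE k F M)) q ∧
        ∃ w : Fin 4 → ℂ, w ≠ 0 ∧ (∀ i ≤ j, w i = 0) ∧ q = mkP (M.mulVec w)) ∧
      (e : ℚ) • Orb (frE k F M) (mkP (M.mulVec z)) + y ∈ ratQ F := by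
  classical
  have hdet := hM.det
  have hME : ∀ i j, M i j ∈ frE k F M := asm_mem_frE k F M
  have hMC : ∀ i j, M i j ∈ clo (frE k F M) := fun i j => le_clo _ (hME i j)
  have hj3 : j ≠ 3 := by
    rintro rfl
    exact absurd hj (by decide)
  have hz : z ≠ 0 := by
    rintro rfl
    exact zero_ne_one hzj
  have hKE : cof k F ≤ frE k F M := hM.le
  have hFK : Coef (cof k F) F := fun m => subset_adj _ _ ⟨m, rfl⟩
  have hFE : Coef (frE k F M) F := hFK.mono hKE
  obtain ⟨k₁, hk₁, ha, hG₀, hEk⟩ := asm_frE_split hd hF hM hj3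
  have hzG : aeval z (frG F M) = 0 := (asm_mkP_mem_surf hF.hom hdet hz).1 hzF
  have hzC : ∀ i, z i ∈ clo (frE k F M) := (asm_over_mulVec hdet hMC hzj).1 hzE
  have hdil := dil k₁ j hj (by omega) (frG F M) (asm_frG_hom hF.hom M) _ ha hG₀ z hz0 hzj hzG
    (by rw [← hEk]; exact hzC)
  rw [← hEk] at hdil
  obtain ⟨u, hu, s, hs0, hsj, hsG, hsC, hsn, ⟨V₀, hV₀, hu₀, hs₀⟩, hconj, hinf⟩ := hdil
  clear hG₀ ha hEk hk₁
  have hEc : Countable (frE k F M) := asm_countable_frE k F M
  generalize hEdef : frE k F M = E at *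
  have hs : s ≠ 0 := by
    rintro rfl
    exact zero_ne_one hsj
  -- the family
  have hsOver : Over (clo (adj E {u})) (mkP (M.mulVec s)) :=
    (asm_over_mulVec hdet (fun i j => le_clo _ (le_adj _ _ (hME i j))) hsj).2 hsC
  have hfin := finite_orbit_pt (adj E {u}) hsOver
  obtain ⟨S, hSnd, hSmem⟩ : ∃ S : Multiset PP, S.Nodup ∧
      ∀ q, q ∈ S ↔ ∃ σ ∈ Fix (adj E {u}), act σ (mkP (M.mulVec s)) = q := by
    refine ⟨hfin.toFinset.val, hfin.toFinset.nodup, fun q => ?_⟩
    rw [Finset.mem_val, Set.Finite.mem_toFinset]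
    rfl
  have hS : IsFam E u S := by
    refine ⟨fun q hq => ?_, fun σ hσ => ?_⟩
    · obtain ⟨σ, hσ, rfl⟩ := (hSmem q).1 hq
      exact (over_clo_act hσ).2 hsOver
    · refine (Multiset.Nodup.ext (hSnd.map (act_injective σ)) hSnd).2 fun q => ?_
      rw [Multiset.mem_map]
      constructor
      · rintro ⟨q', hq', rfl⟩
        obtain ⟨τ, hτ, rfl⟩ := (hSmem q').1 hq'
        exact (hSmem _).2 ⟨σ * τ, (Fix _).mul_mem hσ hτ, by rw [act_mul]⟩
      · intro hq
        obtain ⟨τ, hτ, rfl⟩ := (hSmem q).1 hq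
        refine ⟨act (σ⁻¹ * τ) (mkP (M.mulVec s)), (hSmem _).2
          ⟨_, (Fix _).mul_mem ((Fix _).inv_mem hσ) hτ, rfl⟩, ?_⟩
        rw [← act_mul, mul_inv_cancel_left]
  have hsS : mkP (M.mulVec s) ∈ S := (hSmem _).2 ⟨1, (Fix _).one_mem, act_one _⟩
  -- its members are generic
  have hsF : mkP (M.mulVec s) ∈ surf F := (asm_mkP_mem_surf hF.hom hdet hs).2 hsG
  have hspP : SpP V₀ (clo E) (mkP (M.mulVec s)) (mkP (M.mulVec z)) :=
    (asm_spP_mulVec hV₀ hdet hMC hs hz).2 ((spP_mk hV₀ hs hz hsj hzj).2 hs₀)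
  have hFixK : ∀ σ ∈ Fix (adj E {u}), σ ∈ Fix (cof k F) := fun σ hσ =>
    Fix_mono (hKE.trans (le_adj _ _)) hσ
  have hSF : ∀ q ∈ S, q ∈ surf F := by
    intro q hq
    obtain ⟨σ, hσ, rfl⟩ := (hSmem q).1 hq
    exact (act_mem_surf hF.hom hFK (hFixK σ hσ)).2 hsF
  -- limits
  have hEu : adj E {u} ≤ adj (clo E) {u} :=
    adj_le ((le_clo E).trans (le_adj _ _)) (subset_adj _ _)
  have hSOver : ∀ q ∈ S, Over (clo (adj (clo E) {u})) q := fun q hq =>
    (hS.isOver q hq).mono (clo_mono hEu)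
  obtain ⟨V₁, hV₁, hu₁⟩ := exists_place (clo_clo E) hu (one_mem (clo E))
  have hex₀ : ∀ q ∈ S, ∃ q', SpP V₀ (clo E) q q' := fun q hq =>
    exists_spP (clo_clo E) hV₀ hu hu₀ (hSOver q hq)
  have hex₁ : ∀ q ∈ S, ∃ q', SpP V₁ (clo E) q q' := fun q hq =>
    exists_spP (clo_clo E) hV₁ hu hu₁ (hSOver q hq)
  choose! f hf using hex₀
  choose! g hg using hex₁
  have hlim₀ : ∀ q ∈ S, (∃ w : Fin 4 → ℂ, w ≠ 0 ∧ (∀ i ≤ j, w i = 0) ∧
      f q = mkP (M.mulVec w)) ∨
      f q ∈ {q' | ∃ σ ∈ Fix E, act σ (mkP (M.mulVec z)) = q'} := by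
    intro q hq
    have h1 := hf q hq
    obtain ⟨σ, hσ, rfl⟩ := (hSmem q).1 hq
    rcases asm_lim (zero_mem E) hdet hME hs0 hsj hV₀ hu₀ hσ h1 with h2 | ⟨V', hV', hu', w, hw, h2⟩
    · exact Or.inl h2
    · obtain ⟨τ, hτ, h3⟩ := hconj V' hV' hu' w hw
      refine Or.inr ⟨σ * τ, (Fix E).mul_mem (Fix_mono (le_adj _ _) hσ) hτ, ?_⟩
      rw [asm_act_mkP hdet hME ((Fix E).mul_mem (Fix_mono (le_adj _ _) hσ) hτ) hz, h2]
      congr 2
      funext i
      rw [← h3 i]
      rfl
  have hlim₁ : ∀ q ∈ S, ∃ w : Fin 4 → ℂ, w ≠ 0 ∧ (∀ i ≤ j, w i = 0) ∧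
      g q = mkP (M.mulVec w) := by
    intro q hq
    have h1 := hg q hq
    obtain ⟨σ, hσ, rfl⟩ := (hSmem q).1 hq
    rcases asm_lim (one_mem E) hdet hME hs0 hsj hV₁ hu₁ hσ h1 with h2 | ⟨V', hV', hu', w, hw, h2⟩
    · exact h2
    · obtain ⟨i, hi⟩ := hinf V' hV' hu'
      exact absurd ((hw i).mem hV') hi
  -- the cycles
  have hst₀ : ∀ σ ∈ Fix E, actC σ (cycQ (S.map f)) = cycQ (S.map f) := fun σ hσ => by
    rw [actC_cycQ, stable_ms hu hS (zero_mem E) hV₀ hu₀ hf hσ]
  have hst₁ : ∀ σ ∈ Fix E, actC σ (cycQ (S.map g)) = cycQ (S.map g) := fun σ hσ => by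
    rw [actC_cycQ, stable_ms hu hS (one_mem E) hV₁ hu₁ hg hσ]
  refine ⟨(S.map f).count (mkP (M.mulVec z)), cycQ (S.map f) - cycQ (S.map g) -
    ((S.map f).count (mkP (M.mulVec z)) : ℚ) • Orb E (mkP (M.mulVec z)), ?_, ?_, ?_, ?_⟩
  · rw [Multiset.count_pos, Multiset.mem_map]
    exact ⟨_, hsS, SpP.unique hV₀ (hf _ hsS) hspP⟩
  · intro σ hσ
    rw [map_sub, map_sub, map_smul, hst₀ σ hσ, hst₁ σ hσ, actC_Orb hzE hσ]
  · intro q hq
    have hq' := Finsupp.mem_support_iff.1 hq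
    rw [Finsupp.sub_apply, Finsupp.sub_apply, Finsupp.smul_apply, smul_eq_mul] at hq'
    have key : q ∈ S.map g ∨ (q ∈ S.map f ∧
        q ∉ {q' | ∃ σ ∈ Fix E, act σ (mkP (M.mulVec z)) = q'}) := by
      by_cases hO : q ∈ {q' | ∃ σ ∈ Fix E, act σ (mkP (M.mulVec z)) = q'}
      · left
        by_contra hcon
        apply hq'
        have h1 : Orb E (mkP (M.mulVec z)) q = 1 := by
          unfold Orb
          rw [asm_sumSet_apply (finite_orbit_pt E hzE), if_pos hO]
        have h2 : cycQ (S.map f) q = ((S.map f).count (mkP (M.mulVec z)) : ℚ) := by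
          obtain ⟨σ, hσ, rfl⟩ := hO
          rw [← hst₀ σ hσ, actC_apply, act_inv_act, cycQ_apply]
        rw [h1, h2, cycQ_apply, Multiset.count_eq_zero_of_notMem hcon]
        simp
      · by_cases hg' : q ∈ S.map g
        · exact Or.inl hg'
        · refine Or.inr ⟨?_, hO⟩
          by_contra hcon
          apply hq'
          have h1 : Orb E (mkP (M.mulVec z)) q = 0 := by
            unfold Orb
            rw [asm_sumSet_apply (finite_orbit_pt E hzE), if_neg hO]
          rw [h1, cycQ_apply, cycQ_apply, Multiset.count_eq_zero_of_notMem hcon,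
            Multiset.count_eq_zero_of_notMem hg']
          simp
    have hFC : Coef (clo E) F := hFE.mono (le_clo E)
    rcases key with h1 | ⟨h1, h2⟩
    · obtain ⟨p', hp', rfl⟩ := Multiset.mem_map.1 h1
      exact ⟨SpP.mem_surf hV₁ hF.hom hFC (hg p' hp') (hSF p' hp'), (hg p' hp').over,
        hlim₁ p' hp'⟩
    · obtain ⟨p', hp', rfl⟩ := Multiset.mem_map.1 h1
      refine ⟨SpP.mem_surf hV₀ hF.hom hFC (hf p' hp') (hSF p' hp'), (hf p' hp').over, ?_⟩
      rcases hlim₀ p' hp' with h3 | h3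
      · exact h3
      · exact absurd h3 h2
  · have h5 : (((S.map f).count (mkP (M.mulVec z)) : ℕ) : ℚ) • Orb E (mkP (M.mulVec z)) +
        (cycQ (S.map f) - cycQ (S.map g) -
          (((S.map f).count (mkP (M.mulVec z)) : ℕ) : ℚ) • Orb E (mkP (M.mulVec z))) =
        cycQ (S.map f) - cycQ (S.map g) := by abel
    rw [h5]
    exact link_ms hu hS hF.hom hFE hSF hV₀ hV₁ hu₀ hu₁ hf hg

/-- Invariant cycles on the surface are combinations of `p` and of the line. -/
theorem asm1 (hd : 4 ≤ d) (hF : IsSmoothForm F d) (k : Fl) [Countable k]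
    {p : PP} {M : Matrix (Fin 4) (Fin 4) ℂ} (hM : IsFrame k F d p M)
    {y : Cy} (hy : ∀ q ∈ y.support, q ∈ surf F ∧ Over (clo (frE k F M)) q)
    (hst : ∀ σ ∈ Fix (frE k F M), actC σ y = y) :
    ∃ m a : ℚ, y - m • Finsupp.single p 1 - a • sumSet (lineSet F M) ∈ ratQ F := by
  classical
  have hcK : Countable (cof k F) := by
    have hk1 : Countable (Set.range fun m => coeff m F) := (Set.countable_range _).to_subtype
    unfold cof
    infer_instance
  have hact : ∀ σ ∈ Fix (frE k F M), act σ p = p := by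
    intro σ hσ
    rw [hM.pt, as2_act hM.det hσ as2_e3]
    congr 2
    funext i
    by_cases hi : i = 3
    · subst hi
      simp
    · rw [Pi.single_eq_of_ne hi, map_zero]
  -- the submodule
  let W : Submodule ℚ Cy := ratQ F ⊔
    Submodule.span ℚ {Finsupp.single p 1, sumSet (lineSet F M)}
  have hN : ratQ F ≤ W := le_sup_left
  have hpW : (Finsupp.single p 1 : Cy) ∈ W :=
    (le_sup_right : _ ≤ W) (Submodule.subset_span (Set.mem_insert _ _))
  have hLW : sumSet (lineSet F M) ∈ W :=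
    (le_sup_right : _ ≤ W) (Submodule.subset_span (Set.mem_insert_of_mem _ rfl))
  -- the points of the line
  have hline : ∀ q ∈ lineSet F M, Orb (frE k F M) q ∈ W := by
    intro q hq
    by_cases hqp : q = p
    · subst hqp
      have h1 : Orb (frE k F M) q = Finsupp.single q 1 := by
        unfold Orb
        have h2 : {q' | ∃ σ ∈ Fix (frE k F M), act σ q = q'} = {q} := by
          ext q'
          constructor
          · rintro ⟨σ, hσ, rfl⟩
            exact hact σ hσ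
          · intro h
            exact ⟨1, one_mem _, by rw [act_one, Set.mem_singleton_iff.1 h]⟩
        rw [h2]
        ext r
        rw [as2_sumSet_apply (Set.finite_singleton q), Finsupp.single_apply]
        simp only [Set.mem_singleton_iff, eq_comm]
      rw [h1]
      exact hpW
    · have h1 := line_orb hd hF k hM hq hqp
      rw [← eq_sub_iff_add_eq] at h1
      rw [h1]
      exact W.sub_mem hLW hpW
  -- from one step to the next
  have hstep : ∀ (q : PP) (e : ℕ) (y' : Cy), 0 < e →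
      (e : ℚ) • Orb (frE k F M) q + y' ∈ ratQ F → y' ∈ W →
      Orb (frE k F M) q ∈ W := by
    intro q e y' he h1 h2
    have h3 : (e : ℚ) • Orb (frE k F M) q ∈ W := by
      have := W.sub_mem (hN h1) h2
      rwa [add_sub_cancel_right] at this
    have h4 := W.smul_mem ((e : ℚ)⁻¹) h3
    rwa [smul_smul, inv_mul_cancel₀ (by exact_mod_cast he.ne'), one_smul] at h4
  have hspan : ∀ y' : Cy, (∀ σ ∈ Fix (frE k F M), actC σ y' = y') →
      (∀ q ∈ y'.support, Over (clo (frE k F M)) q) →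
      (∀ q ∈ y'.support, Orb (frE k F M) q ∈ W) → y' ∈ W := by
    intro y' h1 h2 h3
    refine (Submodule.span_le.2 ?_) (mem_span_orb _ y' h1 h2)
    rintro w ⟨q, hq, rfl⟩
    exact h3 q hq
  have hnorm : ∀ (z : Fin 4 → ℂ) (j : Fin 4), z j ≠ 0 →
      ((z j)⁻¹ • z) j = 1 ∧ mkP (M.mulVec ((z j)⁻¹ • z)) = mkP (M.mulVec z) := by
    intro z j hj
    have hz : z ≠ 0 := by
      rintro rfl
      exact hj rfl
    refine ⟨?_, as2_mkP_smul hM.det hz (inv_ne_zero hj)⟩
    rw [Pi.smul_apply, smul_eq_mul, inv_mul_cancel₀ hj]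
  -- the points of the plane
  have hplane : ∀ z : Fin 4 → ℂ, z ≠ 0 → z 0 = 0 → mkP (M.mulVec z) ∈ surf F →
      Over (clo (frE k F M)) (mkP (M.mulVec z)) → Orb (frE k F M) (mkP (M.mulVec z)) ∈ W := by
    intro z hz h0 hzF hzE
    by_cases h1 : z 1 = 0
    · exact hline _ ⟨hzF, z, hz, h0, h1, rfl⟩
    · obtain ⟨h2, h3⟩ := hnorm z 1 h1
      rw [← h3] at hzF hzE ⊢
      obtain ⟨e, y', he, hy1, hy2, hy3⟩ := asm_step1 hd hF k hM 1 (by simp) (z := (z 1)⁻¹ • z)
        (by
          intro i hi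
          have : i = 0 := by
            apply Fin.ext
            have : (i : ℕ) < 1 := hi
            simpa using this
          subst this
          rw [Pi.smul_apply, h0, smul_zero]) h2 hzF hzE
      refine hstep _ e y' he hy3 (hspan y' hy1 (fun q hq => (hy2 q hq).2.1) ?_)
      intro q hq
      obtain ⟨h6, -, w, hw, hw0, rfl⟩ := hy2 q hq
      exact hline _ ⟨h6, w, hw, hw0 0 (by decide), hw0 1 (by decide), rfl⟩
  -- the generic points
  have hgen : ∀ q ∈ y.support, Orb (frE k F M) q ∈ W := by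
    intro q hq
    obtain ⟨hqG, hqE⟩ := hy q hq
    obtain ⟨z, hz, rfl⟩ := as2_exists hM.det q
    by_cases h0 : z 0 = 0
    · exact hplane z hz h0 hqG hqE
    · obtain ⟨h2, h3⟩ := hnorm z 0 h0
      rw [← h3] at hqG hqE ⊢
      obtain ⟨e, y', he, hy1, hy2, hy3⟩ := asm_step1 hd hF k hM 0 (by simp) (z := (z 0)⁻¹ • z)
        (by
          intro i hi
          exact absurd hi (Fin.not_lt_zero i)) h2 hqG hqE
      refine hstep _ e y' he hy3 (hspan y' hy1 (fun q hq => (hy2 q hq).2.1) ?_)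
      intro q hq
      obtain ⟨h6, h7, w, hw, hw0, rfl⟩ := hy2 q hq
      exact hplane w hw (hw0 0 le_rfl) h6 h7
  have hyW : y ∈ W := hspan y hst (fun q hq => (hy q hq).2) hgen
  obtain ⟨n, hn, v, hv, hnv⟩ := Submodule.mem_sup.1 hyW
  obtain ⟨m, a, hma⟩ := Submodule.mem_span_pair.1 hv
  refine ⟨m, a, ?_⟩
  have h1 : y - m • Finsupp.single p 1 - a • sumSet (lineSet F M) = n := by
    rw [← hnv, ← hma]
    abel
  rw [h1]
  exact hn


private theorem s1_countable (k : Fl) [Countable k] (F : MvPolynomial (Fin 4) ℂ)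
    (M : Matrix (Fin 4) (Fin 4) ℂ) : Countable (frE k F M) := by
  have h1 : Countable (Set.range fun ij : Fin 4 × Fin 4 => M ij.1 ij.2) :=
    (Set.countable_range _).to_subtype
  have h2 : Countable (Set.range fun m => coeff m (frG F M)) := (Set.countable_range _).to_subtype
  have h3 : Countable (frk k M) := countable_adj k _
  exact countable_adj _ _

private theorem s1_actC_sumSet (σ : ℂ ≃+* ℂ) {s : Set PP} (hs : s.Finite) :
    actC σ (sumSet s) = sumSet (act σ '' s) := by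
  unfold sumSet
  rw [finsum_mem_image (act_injective σ).injOn, finsum_mem_eq_finite_toFinset_sum _ hs,
    finsum_mem_eq_finite_toFinset_sum _ hs, map_sum]
  exact Finset.sum_congr rfl fun q _ => actC_single σ q 1

/-- **Theorem S** for one correspondence, with arbitrary support. -/
theorem s1 (hd : 4 ≤ d) (hF : IsSmoothForm F d) (k : Fl) [Countable k]
    (hind : AlgebraicIndependent k
      (fun m : {m : Fin 4 →₀ ℕ // m.degree = d} => coeff m.1 F))
    {α : PP → Cy} (hs : ∀ p ∈ Gen (cof k F) F, ∀ q ∈ (α p).support, q ∈ surf F)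
    (he : ∀ σ ∈ Fix (cof k F), ∀ p ∈ Gen (cof k F) F, α (act σ p) = actC σ (α p))
    {p r : PP} (hp : p ∈ Gen (cof k F) F) (hr : r ∈ Gen (clo (adjP (cof k F) p)) F) :
    ∃ m : ℚ, α p - α r - m • (Finsupp.single p 1 - Finsupp.single r 1) ∈ ratQ F := by
  classical
  obtain ⟨M, hM, hrM⟩ := exists_frame_line hd hF k hind hp hr
  have hKF : Coef (cof k F) F := coef_cof k F
  have hcE : Countable (frE k F M) := s1_countable k F M
  have hpM : p ∈ lineSet F M := hM.mem_lineSet hF hp.1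
  obtain ⟨σ, hσ, hσp, hσr⟩ := gen_swap hd hF (cof k F) hKF hp hr
  have hσK : σ ∈ Fix (cof k F) := Fix_mono (le_clo _) hσ
  have hpr : p ≠ r := by
    intro h
    have h2 := gen_not_over hd hF (clo (adjP (cof k F) p))
      (hKF.mono ((le_adjP _ p).trans (le_clo _))) hr
    rw [← h] at h2
    exact h2 ((over_adjP _ _).mono ((le_clo _).trans (le_clo _)))
  have hline : act σ '' lineSet F M = lineSet F M := by
    have hp' : p ∈ act σ '' lineSet F M := ⟨r, hrM, hσr⟩
    have hr' : r ∈ act σ '' lineSet F M := ⟨p, hpM, hσp⟩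
    rw [lineSet_act hF hσK] at hp' hr' ⊢
    exact lineSet_eq (k := k) hpr (hM.act hF hσK).det hM.det hp' hr' hpM hrM
  have hfin := finite_lineSet hd hF k hM
  have hE : adjP (cof k F) p ≤ frE k F M := hM.ptE
  have hαp : ∀ τ ∈ Fix (adjP (cof k F) p), actC τ (α p) = α p := by
    intro τ hτ
    rw [← he τ (mem_Fix_adjP.1 hτ).1 p hp, (mem_Fix_adjP.1 hτ).2]
  have hover : ∀ q ∈ (α p).support, Over (clo (frE k F M)) q := by
    intro q hq
    have h1 : Over (clo (adjP (cof k F) p)) q := by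
      apply over_clo_of_finite
      refine ((α p).support.finite_toSet).subset ?_
      rintro q' ⟨τ, hτ, rfl⟩
      rw [Finset.mem_coe, Finsupp.mem_support_iff, ← hαp τ hτ, actC_apply, act_inv_act]
      exact Finsupp.mem_support_iff.1 hq
    exact h1.mono (clo_mono hE)
  obtain ⟨m, a, hma⟩ := asm1 hd hF k hM (y := α p)
    (fun q hq => ⟨hs p hp q hq, hover q hq⟩) (fun τ hτ => hαp τ (Fix_mono hE hτ))
  refine ⟨m, ?_⟩
  have key2 : α r - m • Finsupp.single r 1 - a • sumSet (lineSet F M) ∈ ratQ F := by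
    have := actC_ratQ hF.hom hKF hσK hma
    rwa [map_sub, map_sub, map_smul, map_smul, ← he σ hσK p hp, hσp, actC_single, hσp,
      s1_actC_sumSet σ hfin, hline] at this
  have := (ratQ F).sub_mem hma key2
  convert this using 1
  rw [smul_sub]
  abel

end Pool.Agent.VGS
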