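import Pool.Agent.VGS2.S1
import Pool.Agent.VGS.RingB

/-! Module S1b: the scalar of an invariant correspondence with arbitrary support. -/

set_option autoImplicit false

open scoped LinearAlgebra.Projectivization
open MvPolynomial

namespace Pool.Agent.VGS

open Pool.Agent.LowDeg (surf IsSmoothForm)

variable {F : MvPolynomial (Fin 4) ℂ} {d : ℕ}

theorem s1_scalar_aux (hd : 4 ≤ d) (hF : IsSmoothForm F d) (k : Fl) [Countable k]
    (hind : AlgebraicIndependent k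
      (fun m : {m : Fin 4 →₀ ℕ // m.degree = d} => coeff m.1 F))
    {α : PP → Cy} (hα : ∀ p ∈ Gen (cof k F) F, ∀ q ∈ (α p).support, q ∈ surf F)
    (he : ∀ σ ∈ Fix (cof k F), ∀ p ∈ Gen (cof k F) F, α (act σ p) = actC σ (α p)) {s : ℂ}
    (hs : ∀ y ∈ Gen (cof k F) F, ∀ D₁ D₂ : Derivation ℤ ℂ ℂ, Kills (cof k F) D₁ →
      Kills (cof k F) D₂ → ∀ f : MvPolynomial (Fin 4) ℂ, f.IsHomogeneous (d - 4) →
        tauC F D₁ D₂ f (α y) = s * tau F D₁ D₂ f y)
    {p r : PP} (hp : p ∈ Gen (cof k F) F) (hr : r ∈ Gen (clo (adjP (cof k F) p)) F) :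
    ∃ m : ℚ, s = m ∧ α p - α r - m • (Finsupp.single p 1 - Finsupp.single r 1) ∈ ratQ F := by
  obtain ⟨m, h1⟩ := s1 hd hF k hind hα he hp hr
  refine ⟨m, ?_, h1⟩
  have hFK := coef_cof k F
  have hrK : r ∈ Gen (cof k F) F := Gen_anti ((le_adjP _ _).trans (le_clo _)) F hr
  obtain ⟨L, hL⟩ : ∃ L : Fl, L = clo (adjP (cof k F) r) := ⟨_, rfl⟩
  have hLc : Countable L := by rw [hL]; infer_instance
  have hKL : cof k F ≤ L := by rw [hL]; exact (le_adjP _ _).trans (le_clo _)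
  have hFL : Coef L F := hFK.mono hKL
  have hpL : p ∈ Gen L F := by rw [hL]; exact gen_symm hd hF _ hFK hp hr
  have hrL : Over L r := by rw [hL]; exact (over_adjP _ _).mono (le_clo _)
  obtain ⟨D₁, D₂, h₁, h₂, -, -, hne⟩ := exists_tau_ne hd hF L hFL hpL
  have hf : (X 0 ^ (d - 4) : MvPolynomial (Fin 4) ℂ).IsHomogeneous (d - 4) := by
    have h := (isHomogeneous_X ℂ (0 : Fin 4)).pow (d - 4)
    rwa [one_mul] at h
  have h2 := mumford hd hF L hFL h₁ h₂ hf h1
  have hk₁ : Kills (cof k F) D₁ := fun x hx => h₁ x (hKL hx)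
  have hk₂ : Kills (cof k F) D₂ := fun x hx => h₂ x (hKL hx)
  have e1 : (Finsupp.single p 1 : Cy) = idT p := rfl
  have e2 : (Finsupp.single r 1 : Cy) = idT r := rfl
  rw [e1, e2, map_sub, map_sub, map_smul, map_sub, hs p hp D₁ D₂ hk₁ hk₂ _ hf,
    hs r hrK D₁ D₂ hk₁ hk₂ _ hf, tauC_idT, tauC_idT,
    tau_over hd hF hFL h₁ h₂ hr.1 hrL hf, mul_zero, sub_zero, sub_zero,
    Rat.smul_def, ← sub_mul] at h2
  rcases mul_eq_zero.1 h2 with h3 | h3
  · exact sub_eq_zero.1 h3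
  · exact absurd h3 hne

/-- **Theorem S** with the scalar: an invariant correspondence (arbitrary support) which acts on
two-forms by the scalar `s` acts on differences of generic points by `s`. -/
theorem s1_scalar (hd : 4 ≤ d) (hF : IsSmoothForm F d) (k : Fl) [Countable k]
    (hind : AlgebraicIndependent k
      (fun m : {m : Fin 4 →₀ ℕ // m.degree = d} => coeff m.1 F))
    {α : PP → Cy} (hα : ∀ p ∈ Gen (cof k F) F, ∀ q ∈ (α p).support, q ∈ surf F)
    (he : ∀ σ ∈ Fix (cof k F), ∀ p ∈ Gen (cof k F) F, α (act σ p) = actC σ (α p)) {s : ℂ}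
    (hs : ∀ y ∈ Gen (cof k F) F, ∀ D₁ D₂ : Derivation ℤ ℂ ℂ, Kills (cof k F) D₁ →
      Kills (cof k F) D₂ → ∀ f : MvPolynomial (Fin 4) ℂ, f.IsHomogeneous (d - 4) →
        tauC F D₁ D₂ f (α y) = s * tau F D₁ D₂ f y) :
    ∃ m : ℚ, s = m ∧ ∀ p ∈ Gen (cof k F) F, ∀ q ∈ Gen (cof k F) F,
      α p - α q - m • (Finsupp.single p 1 - Finsupp.single q 1) ∈ ratQ F := by
  have hFK := coef_cof k F
  have key : ∀ p ∈ Gen (cof k F) F, ∀ q ∈ Gen (cof k F) F, ∃ m : ℚ, s = m ∧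
      α p - α q - m • (Finsupp.single p 1 - Finsupp.single q 1) ∈ ratQ F := by
    intro p hp q hq
    obtain ⟨L, hL⟩ : ∃ L : Fl, L = clo (adjP (adjP (cof k F) p) q) := ⟨_, rfl⟩
    have hLc : Countable L := by rw [hL]; infer_instance
    have hpL : clo (adjP (cof k F) p) ≤ L := by rw [hL]; exact clo_mono (le_adjP _ _)
    have hqL : clo (adjP (cof k F) q) ≤ L := by
      rw [hL]
      refine clo_mono (adj_le ?_ (subset_adj _ _))
      exact (le_adjP _ _).trans (le_adjP _ _)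
    have hKL : cof k F ≤ L := (le_adjP _ _).trans ((le_clo _).trans hpL)
    obtain ⟨r, hr⟩ := exists_gen hd hF L (hFK.mono hKL)
    obtain ⟨m, hm, h1⟩ := s1_scalar_aux hd hF k hind hα he hs hp (Gen_anti hpL F hr)
    obtain ⟨m', hm', h2⟩ := s1_scalar_aux hd hF k hind hα he hs hq (Gen_anti hqL F hr)
    have hmm : m' = m := by
      have : (m' : ℂ) = m := by rw [← hm, ← hm']
      exact_mod_cast this
    subst hmm
    refine ⟨m', hm', ?_⟩
    have h5 := (ratQ F).sub_mem h1 h2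
    convert h5 using 1
    rw [smul_sub, smul_sub, smul_sub]
    abel
  obtain ⟨p₀, hp₀⟩ := exists_gen hd hF (cof k F) hFK
  obtain ⟨m, hm, -⟩ := key p₀ hp₀ p₀ hp₀
  refine ⟨m, hm, fun p hp q hq => ?_⟩
  obtain ⟨m', hm', h1⟩ := key p hp q hq
  have hmm : m' = m := by
    have : (m' : ℂ) = m := by rw [← hm, ← hm']
    exact_mod_cast this
  subst hmm
  exact h1

end Pool.Agent.VGS
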