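import Pool.Agent.VGS2.Sys

/-! Module SysW: the action on the classes of cycles, generation by generic points. -/

set_option autoImplicit false

namespace Pool.Agent.VGS

namespace Sys

variable {S : Sys}

theorem aC_single (σ : ℂ ≃+* ℂ) (p : S.P) (c : ℚ) :
    S.aC σ (Finsupp.single p c) = Finsupp.single (S.act σ p) c := by
  unfold aC
  rw [Finsupp.lmapDomain_apply, Finsupp.mapDomain_single]

theorem aC_one (z : S.Cy) : S.aC 1 z = z := by
  have h : S.aC 1 = LinearMap.id := by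
    apply Finsupp.lhom_ext
    intro p c
    rw [aC_single, S.act_one]
    rfl
  rw [h]
  rfl

theorem aC_mul (σ τ : ℂ ≃+* ℂ) (z : S.Cy) : S.aC (σ * τ) z = S.aC σ (S.aC τ z) := by
  have h : S.aC (σ * τ) = (S.aC σ).comp (S.aC τ) := by
    apply Finsupp.lhom_ext
    intro p c
    rw [aC_single, LinearMap.comp_apply, aC_single, aC_single, S.act_mul]
  rw [h]
  rfl

/-- the action on cycles as a linear equivalence -/
noncomputable def aE (S : Sys) (σ : ℂ ≃+* ℂ) : S.Cy ≃ₗ[ℚ] S.Cy :=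
  LinearEquiv.ofLinearMap (S.aC σ) (S.aC σ⁻¹)
    (by
      apply LinearMap.ext
      intro z
      change S.aC σ (S.aC σ⁻¹ z) = z
      rw [← aC_mul, mul_inv_cancel, aC_one])
    (by
      apply LinearMap.ext
      intro z
      change S.aC σ⁻¹ (S.aC σ z) = z
      rw [← aC_mul, inv_mul_cancel, aC_one])

theorem aE_apply (σ : ℂ ≃+* ℂ) (z : S.Cy) : S.aE σ z = S.aC σ z := rfl

theorem aC_rat {σ : ℂ ≃+* ℂ} (hσ : σ ∈ Fix S.K) {z : S.Cy} (hz : z ∈ S.rat) :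
    S.aC σ z ∈ S.rat := S.rat_act σ hσ z hz

theorem aE_rat {σ : ℂ ≃+* ℂ} (hσ : σ ∈ Fix S.K) : S.rat.map (S.aE σ).toLinearMap = S.rat := by
  apply le_antisymm
  · rintro _ ⟨z, hz, rfl⟩
    exact aC_rat hσ hz
  · intro z hz
    refine ⟨S.aC σ⁻¹ z, aC_rat (inv_mem hσ) hz, ?_⟩
    change S.aC σ (S.aC σ⁻¹ z) = z
    rw [← aC_mul, mul_inv_cancel, aC_one]

open Classical in
/-- the action on the classes of cycles -/
noncomputable def aW (S : Sys) (σ : ℂ ≃+* ℂ) : S.W ≃ₗ[ℚ] S.W :=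
  if h : σ ∈ Fix S.K then Submodule.Quotient.equiv S.rat S.rat (S.aE σ) (aE_rat h)
  else LinearEquiv.refl ℚ S.W

theorem aW_cl {σ : ℂ ≃+* ℂ} (hσ : σ ∈ Fix S.K) (z : S.Cy) :
    S.aW σ (S.cl z) = S.cl (S.aC σ z) := by
  unfold aW
  rw [dif_pos hσ]
  rfl

theorem aW_pt {σ : ℂ ≃+* ℂ} (hσ : σ ∈ Fix S.K) (p : S.P) :
    S.aW σ (S.pt p) = S.pt (S.act σ p) := by
  unfold pt
  rw [aW_cl hσ, aC_single]

theorem cl_surj (v : S.W) : ∃ z, S.cl z = v := Submodule.mkQ_surjective S.rat v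

theorem aW_mul {σ τ : ℂ ≃+* ℂ} (hσ : σ ∈ Fix S.K) (hτ : τ ∈ Fix S.K) (v : S.W) :
    S.aW (σ * τ) v = S.aW σ (S.aW τ v) := by
  obtain ⟨z, rfl⟩ := cl_surj v
  rw [aW_cl hτ, aW_cl hσ, aW_cl (mul_mem hσ hτ), aC_mul]

theorem aW_one (v : S.W) : S.aW 1 v = v := by
  obtain ⟨z, rfl⟩ := cl_surj v
  rw [aW_cl (one_mem _), aC_one]

theorem aW_symm {σ : ℂ ≃+* ℂ} (hσ : σ ∈ Fix S.K) (v : S.W) : (S.aW σ).symm v = S.aW σ⁻¹ v := by
  rw [LinearEquiv.symm_apply_eq, ← aW_mul hσ (inv_mem hσ), mul_inv_cancel, aW_one]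

/-- conjugation of endomorphisms -/
noncomputable def cW (S : Sys) (σ : ℂ ≃+* ℂ) : Module.End ℚ S.W ≃ₐ[ℚ] Module.End ℚ S.W :=
  (S.aW σ).conjAlgEquiv ℚ

theorem cW_apply {σ : ℂ ≃+* ℂ} (hσ : σ ∈ Fix S.K) (e : Module.End ℚ S.W) (v : S.W) :
    S.cW σ e v = S.aW σ (e (S.aW σ⁻¹ v)) := by
  rw [← aW_symm hσ]
  rfl

theorem cW_mul {σ τ : ℂ ≃+* ℂ} (hσ : σ ∈ Fix S.K) (hτ : τ ∈ Fix S.K) (e : Module.End ℚ S.W) :
    S.cW (σ * τ) e = S.cW σ (S.cW τ e) := by
  apply LinearMap.ext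
  intro v
  rw [cW_apply (mul_mem hσ hτ), cW_apply hσ, cW_apply hτ, aW_mul hσ hτ, mul_inv_rev,
    aW_mul (inv_mem hτ) (inv_mem hσ)]

theorem cW_one (e : Module.End ℚ S.W) : S.cW 1 e = e := by
  apply LinearMap.ext
  intro v
  rw [cW_apply (one_mem _), inv_one, aW_one, aW_one]

/-! ### classes of cycles -/

theorem cl_eq_sum (z : S.Cy) : S.cl z = z.sum fun p c => c • S.pt p := by
  have h : S.cl = Finsupp.linearCombination ℚ S.pt := by
    apply Finsupp.lhom_ext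
    intro p c
    rw [Finsupp.linearCombination_single, pt, ← map_smul, Finsupp.smul_single, smul_eq_mul,
      mul_one]
  rw [h]
  rfl

theorem cl_mem {N : Submodule ℚ S.W} {z : S.Cy} (h : ∀ p ∈ z.support, S.pt p ∈ N) :
    S.cl z ∈ N := by
  rw [cl_eq_sum]
  exact Submodule.sum_mem _ fun p hp => N.smul_mem _ (h p hp)

theorem cl_mem_VX {z : S.Cy} (h : ∀ p ∈ z.support, p ∈ S.X) : S.cl z ∈ S.VX :=
  cl_mem fun p hp => Submodule.subset_span ⟨p, h p hp, rfl⟩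

/-- a cycle of degree zero is a combination of differences of its points -/
theorem cl_mem_deg {N : Submodule ℚ S.W} {z : S.Cy}
    (h : ∀ p ∈ z.support, ∀ q ∈ z.support, S.pt p - S.pt q ∈ N)
    (h0 : Finsupp.linearCombination ℚ (fun _ : S.P => (1 : ℚ)) z = 0) : S.cl z ∈ N := by
  rcases Finset.eq_empty_or_nonempty z.support with h1 | ⟨q, hq⟩
  · rw [Finsupp.support_eq_empty.1 h1, map_zero]
    exact N.zero_mem
  · have h2 : ∑ p ∈ z.support, z p = 0 := by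
      rw [Finsupp.linearCombination_apply, Finsupp.sum] at h0
      rw [← h0]
      exact Finset.sum_congr rfl fun p _ => by rw [smul_eq_mul, mul_one]
    have h3 : S.cl z = ∑ p ∈ z.support, z p • (S.pt p - S.pt q) := by
      rw [cl_eq_sum, Finsupp.sum]
      rw [Finset.sum_congr rfl fun p _ => smul_sub (z p) (S.pt p) (S.pt q), Finset.sum_sub_distrib,
        ← Finset.sum_smul, h2, zero_smul, sub_zero]
    rw [h3]
    exact Submodule.sum_mem _ fun p hp => N.smul_mem _ (h p hp q hq)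

theorem V0_le_VX : S.V0 ≤ S.VX := by
  refine Submodule.span_le.2 ?_
  rintro _ ⟨p, hp, q, hq, rfl⟩
  exact Submodule.sub_mem _ (Submodule.subset_span ⟨p, hp, rfl⟩)
    (Submodule.subset_span ⟨q, hq, rfl⟩)

theorem pt_mem_VX {p : S.P} (hp : p ∈ S.X) : S.pt p ∈ S.VX := Submodule.subset_span ⟨p, hp, rfl⟩

theorem sub_mem_V0 {p q : S.P} (hp : p ∈ S.X) (hq : q ∈ S.X) : S.pt p - S.pt q ∈ S.V0 :=
  Submodule.subset_span ⟨p, hp, q, hq, rfl⟩

theorem cl_mem_V0 {z : S.Cy} (h : ∀ p ∈ z.support, p ∈ S.X)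
    (h0 : Finsupp.linearCombination ℚ (fun _ : S.P => (1 : ℚ)) z = 0) : S.cl z ∈ S.V0 :=
  cl_mem_deg (fun p hp q hq => sub_mem_V0 (h p hp) (h q hq)) h0

/-- the classes on the surface are generated by the generic points -/
theorem VX_le {L : Fl} (hc : Countable L) (hL : S.K ≤ L) {N : Submodule ℚ S.W}
    (h : ∀ p ∈ S.Gen L, S.pt p ∈ N) : S.VX ≤ N := by
  refine Submodule.span_le.2 ?_
  rintro _ ⟨p, hp, rfl⟩
  obtain ⟨z, hz, hz'⟩ := S.move L hc hL p hp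
  have h1 : S.pt p = S.cl z := by
    unfold pt
    exact (Submodule.Quotient.eq S.rat).2 hz'
  rw [h1]
  exact cl_mem fun q hq => h q (hz q hq)

/-- the classes of degree zero are generated by the differences of generic points -/
theorem V0_le {L : Fl} (hc : Countable L) (hL : S.K ≤ L) {N : Submodule ℚ S.W}
    (h : ∀ p ∈ S.Gen L, ∀ q ∈ S.Gen L, S.pt p - S.pt q ∈ N) : S.V0 ≤ N := by
  classical
  refine Submodule.span_le.2 ?_
  rintro _ ⟨p, hp, q, hq, rfl⟩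
  obtain ⟨z, hz, hz'⟩ := S.move L hc hL p hp
  obtain ⟨w, hw, hw'⟩ := S.move L hc hL q hq
  have h1 : S.pt p = S.cl z := (Submodule.Quotient.eq S.rat).2 hz'
  have h2 : S.pt q = S.cl w := (Submodule.Quotient.eq S.rat).2 hw'
  rw [h1, h2, ← map_sub]
  have hd1 := S.rat_deg _ hz'
  have hd2 := S.rat_deg _ hw'
  rw [map_sub, Finsupp.linearCombination_single] at hd1 hd2
  have h3 : ∀ x ∈ (z - w).support, x ∈ S.Gen L := by
    intro x hx
    rcases Finset.mem_union.1 (Finsupp.support_sub hx) with hx | hx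
    · exact hz x hx
    · exact hw x hx
  refine cl_mem_deg (fun x hx y hy => h x (h3 x hx) y (h3 y hy)) ?_
  rw [map_sub]
  linear_combination hd2 - hd1

theorem aW_VX {σ : ℂ ≃+* ℂ} (hσ : σ ∈ Fix S.K) {v : S.W} (hv : v ∈ S.VX) : S.aW σ v ∈ S.VX := by
  have h : S.VX ≤ S.VX.comap (S.aW σ).toLinearMap := by
    refine Submodule.span_le.2 ?_
    rintro _ ⟨p, hp, rfl⟩
    change S.aW σ (S.pt p) ∈ S.VX
    rw [aW_pt hσ]
    exact pt_mem_VX (S.act_X σ hσ p hp)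
  exact h hv

theorem aW_V0 {σ : ℂ ≃+* ℂ} (hσ : σ ∈ Fix S.K) {v : S.W} (hv : v ∈ S.V0) : S.aW σ v ∈ S.V0 := by
  have h : S.V0 ≤ S.V0.comap (S.aW σ).toLinearMap := by
    refine Submodule.span_le.2 ?_
    rintro _ ⟨p, hp, q, hq, rfl⟩
    change S.aW σ (S.pt p - S.pt q) ∈ S.V0
    rw [map_sub, aW_pt hσ, aW_pt hσ]
    exact sub_mem_V0 (S.act_X σ hσ p hp) (S.act_X σ hσ q hq)
  exact h hv

/-! ### linear extensions -/

theorem ex_single (T : S.P → S.Cy) (p : S.P) : S.ex T (Finsupp.single p 1) = T p := by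
  unfold ex
  rw [Finsupp.linearCombination_single, one_smul]

theorem ex_eq_sum (T : S.P → S.Cy) (z : S.Cy) : S.ex T z = z.sum fun p c => c • T p := rfl

theorem ex_mem {T : S.P → S.Cy} {z : S.Cy} {N : Submodule ℚ S.Cy}
    (h : ∀ p ∈ z.support, T p ∈ N) : S.ex T z ∈ N := by
  rw [ex_eq_sum]
  exact Submodule.sum_mem _ fun p hp => N.smul_mem _ (h p hp)

/-- two linear maps which agree on the points of a cycle agree on the cycle -/
theorem lin_congr {M : Type} [AddCommGroup M] [Module ℚ M] {φ ψ : S.Cy →ₗ[ℚ] M} {z : S.Cy}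
    (h : ∀ p ∈ z.support, φ (Finsupp.single p 1) = ψ (Finsupp.single p 1)) : φ z = ψ z := by
  have h1 : ∀ χ : S.Cy →ₗ[ℚ] M, χ z = z.sum fun p c => c • χ (Finsupp.single p 1) := by
    intro χ
    conv_lhs => rw [← Finsupp.sum_single z]
    rw [Finsupp.sum, map_sum, Finsupp.sum]
    refine Finset.sum_congr rfl fun p _ => ?_
    rw [← map_smul, Finsupp.smul_single, smul_eq_mul, mul_one]
  rw [h1 φ, h1 ψ]
  exact Finset.sum_congr rfl fun p hp => congrArg (fun y => z p • y) (h p hp)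

end Sys

end Pool.Agent.VGS
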